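import Pool.Agent.Helper96.FLC.Po
import Pool.Agent.Helper96.FLT.Rd
import Pool.Agent.Helper57.TA.Sc
import Pool.Agent.Helper50.CV.Power
import Pool.Agent.Helper38.NS.Dep

/-! Exact entropy calculus: polynomials of one variable with known coefficients, values at real variables, division by
small real variables. -/

set_option autoImplicit false

namespace Pool.Agent.Helper96.FLC

open Pool.Agent.Helper31.EC QS Sp Pool.Agent.Helper38.NS Pool.Agent.Helper96.FLT Pool.Agent.Helper57.TA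

noncomputable section

variable {S : Sp}

/-- polynomials with coefficients known to `A` -/
def PX (A : S.L) : Subring (Polynomial (QS S)) := (Polynomial.mapRingHom (Kn S 1 le_rfl A).subtype).range

theorem mem_PX {A : S.L} {P : Polynomial (QS S)} : P ∈ PX A ↔ ∀ j, dg (P.coeff j) 1 ≤ A := by
  unfold PX
  rw [Polynomial.mem_map_range]
  constructor
  · intro h j
    obtain ⟨y, hy⟩ := h j
    rw [← hy]
    exact y.2
  · intro h j
    exact ⟨⟨P.coeff j, h j⟩, rfl⟩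

theorem PX_mono {A B : S.L} (h : A ≤ B) {P : Polynomial (QS S)} (hP : P ∈ PX A) : P ∈ PX B :=
  mem_PX.mpr fun j => (mem_PX.mp hP j).trans h

theorem C_mem_PX {A : S.L} {f : QS S} (h : dg f 1 ≤ A) : Polynomial.C f ∈ PX A := by
  rw [mem_PX]
  intro j
  rw [Polynomial.coeff_C]
  split_ifs
  · exact h
  · exact (Kn S 1 le_rfl A).zero_mem

theorem X_mem_PX {A : S.L} : (Polynomial.X : Polynomial (QS S)) ∈ PX A := by
  rw [mem_PX]
  intro j
  rw [Polynomial.coeff_X]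
  split_ifs
  · exact (Kn S 1 le_rfl A).one_mem
  · exact (Kn S 1 le_rfl A).zero_mem

theorem comp_mem_PX {A : S.L} {P Q : Polynomial (QS S)} (hP : P ∈ PX A) (hQ : Q ∈ PX A) : P.comp Q ∈ PX A := by
  rw [Polynomial.comp_eq_sum_left, Polynomial.sum]
  apply Subring.sum_mem
  intro j _
  exact Subring.mul_mem _ (C_mem_PX (mem_PX.mp hP j)) (Subring.pow_mem _ hQ j)

theorem derivative_mem_PX {A : S.L} {P : Polynomial (QS S)} (hP : P ∈ PX A) : Polynomial.derivative P ∈ PX A := by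
  rw [mem_PX]
  intro j
  rw [Polynomial.coeff_derivative]
  apply (Kn S 1 le_rfl A).mul_mem (mem_PX.mp hP (j + 1))
  exact (Kn S 1 le_rfl A).add_mem (natCast_mem (Kn S 1 le_rfl A) j) (Kn S 1 le_rfl A).one_mem

/-- the derivative does not see the constant term -/
theorem derivative_mem_PX' {A : S.L} {P : Polynomial (QS S)} (hP : ∀ j, dg (P.coeff (j + 1)) 1 ≤ A) :
    Polynomial.derivative P ∈ PX A := by
  rw [mem_PX]
  intro j
  rw [Polynomial.coeff_derivative]
  apply (Kn S 1 le_rfl A).mul_mem (hP j)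
  exact (Kn S 1 le_rfl A).add_mem (natCast_mem (Kn S 1 le_rfl A) j) (Kn S 1 le_rfl A).one_mem

theorem eval_known {A : S.L} {P : Polynomial (QS S)} (hP : P ∈ PX A) {x : QS S} (hx : dg x 1 ≤ A) :
    dg (P.eval x) 1 ≤ A := by
  rw [Polynomial.eval_eq_sum]
  apply (Kn S 1 le_rfl A).sum_mem
  intro j _
  exact (Kn S 1 le_rfl A).mul_mem (mem_PX.mp hP j) ((Kn S 1 le_rfl A).pow_mem hx j)

theorem map_mem_PX {T : Sp} (p : Pj T S) {A : S.L} {P : Polynomial (QS S)} (hP : P ∈ PX A) :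
    P.map p.qs ∈ PX (p.map A) := by
  rw [mem_PX]
  intro j
  rw [Polynomial.coeff_map, p.qs_dg]
  exact p.map_mono (mem_PX.mp hP j)

theorem cpl_mem_PX {A : S.L} {k : ℕ} {c : Fin k → QS S} (hc : ∀ j, dg (c j) 1 ≤ A) : cpl c ∈ PX A := by
  rw [mem_PX]
  intro j
  rw [cpl_coeff]
  split_ifs
  · exact hc _
  · exact (Kn S 1 le_rfl A).zero_mem

theorem pe_eval {k : ℕ} (c : Fin (k + 1) → QS S) (x : QS S) : pe c x = (cpl c).eval x := by
  rw [cpl_eval]
  rfl

/-- REAL: the coefficients of a small polynomial in a real variable are small -/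
theorem poly_real {A : S.L} {P : Polynomial (QS S)} (hP : P ∈ PX A) {x : QS S} (hx : h (dg x 1) A = 1) {r : ℝ}
    (hr : r ≤ 1) (hz : P.eval x ∈ QS.Id S r) (j : ℕ) : P.coeff j ∈ QS.Id S r := by
  obtain ⟨k, hk⟩ : ∃ k, k = max P.natDegree j := ⟨_, rfl⟩
  have h1 : P = cpl (fun a : Fin (k + 1) => P.coeff (a : ℕ)) := by
    apply eq_cpl
    intro i hi
    apply Polynomial.coeff_eq_zero_of_natDegree_lt
    have := le_max_left P.natDegree j
    omega
  have h2 : pe (fun a : Fin (k + 1) => P.coeff (a : ℕ)) x = P.eval x := by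
    rw [pe_eval, ← h1]
  have h3 : h (dg x 1) (vd (fun a : Fin (k + 1) => P.coeff (a : ℕ)) 1) = 1 := by
    apply le_antisymm (h_dg_le_one _ _)
    refine hx.ge.trans (h_anti ?_)
    rw [vd_le]
    exact fun a => mem_PX.mp hP a
  have h4 := real_zero (fun a : Fin (k + 1) => P.coeff (a : ℕ)) x h3 hr (by rw [h2]; exact hz)
    ⟨j, Nat.lt_succ_of_le (by rw [hk]; exact le_max_right _ _)⟩
  exact h4

/-- values of polynomials with small coefficients -/
theorem eval_mem_of_coeff {J : Ideal (QS S)} {P : Polynomial (QS S)} (hP : ∀ j, P.coeff j ∈ J) (x : QS S) :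
    P.eval x ∈ J := by
  rw [Polynomial.eval_eq_sum]
  exact J.sum_mem fun j _ => J.mul_mem_right _ (hP j)

/-- digits of scaled functions -/
theorem dg_sc_mul (g : QS S) {a r : ℝ} (ha : 0 ≤ a) (h : a + r ≤ 1) : dg (sc S a * g) (a + r) = dg g r := by
  obtain ⟨G, rfl⟩ := mk_surj g
  unfold sc
  rw [← map_mul, dg_mk _ h, dg_mk _ (by linarith)]
  show io (fun k ω => cell (S.dl (a + r) k) ((TR.vec fun _ : Fin 1 => scT S a * G).v k ω)) =
    io (fun k ω => cell (S.dl r k) ((TR.vec fun _ : Fin 1 => G).v k ω))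
  congr 1
  funext k ω i
  show ⌊S.dl (max a 0) k * TR.ev G k ω / S.dl (a + r) k⌋ = ⌊TR.ev G k ω / S.dl r k⌋
  rw [max_eq_left ha, S.dl_add]
  congr 1
  have h1 := (S.dl_pos a k).ne'
  have h2 := (S.dl_pos r k).ne'
  field_simp

/-- division by a small real variable -/
theorem div_real {f g : QS S} {B : S.L} {y θ : ℝ} (h0 : 0 ≤ y) (hy : θ + y ≤ 1) (hg : g ∈ QS.Id S y)
    (hgB : h (dg g 1) B = 1 - y) (hf : dg f 1 ≤ B) (hm : g * f ∈ QS.Id S (θ + y)) : f ∈ QS.Id S θ := by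
  rcases le_or_gt θ 0 with hθ | hθ
  · exact mem_Id_nonpos hθ
  have hy1 : y ≤ 1 := by linarith
  obtain ⟨κ, hκ⟩ : ∃ κ, κ = 1 - y := ⟨_, rfl⟩
  have k0 : 0 < κ := by rw [hκ]; linarith
  have k1 : κ ≤ 1 := by rw [hκ]; linarith
  obtain ⟨g0, hg0, -⟩ := exists_div' h0 hy1 hg
  have e1 : dg g 1 = dg g0 κ := by
    have h2 := dg_sc_mul g0 (a := y) (r := κ) h0 (by rw [hκ]; linarith)
    have h3 : y + κ = 1 := by rw [hκ]; ring
    rw [h3, ← hg0] at h2
    exact h2
  have e2 : g0 * f ∈ QS.Id S θ := by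
    rw [hg0, mul_assoc] at hm
    have h2 := mem_of_sc_mul h0 hy hm
    rwa [add_sub_cancel_right] at h2
  have e3 : h (dg (dQ κ k0 k1 g0) 1) (dL κ k0 B) = 1 := by
    rw [dQ_dg κ k0 k1 g0 le_rfl, dL_h, mul_one, ← e1, hgB, ← hκ, div_self k0.ne']
  have e4 : dg (dQ κ k0 k1 f) 1 ≤ dL κ k0 B := by
    rw [dQ_dg κ k0 k1 f le_rfl, mul_one]
    exact dL_mono κ k0 ((dg_mono f k1).trans hf)
  have hr : θ / κ ≤ 1 := by
    rw [div_le_one k0, hκ]
    linarith
  have e5 : dQ κ k0 k1 g0 * dQ κ k0 k1 f ∈ QS.Id (dp S κ k0) (θ / κ) := by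
    rw [← map_mul, dQ_mem κ k0 k1 hr, mul_div_cancel₀ _ k0.ne']
    exact e2
  have e6 : (Polynomial.X * Polynomial.C (dQ κ k0 k1 f)).coeff 1 ∈ QS.Id (dp S κ k0) (θ / κ) := by
    apply poly_real (A := dL κ k0 B) (x := dQ κ k0 k1 g0) _ e3 hr
    · rw [Polynomial.eval_mul, Polynomial.eval_X, Polynomial.eval_C]
      exact e5
    · exact Subring.mul_mem _ X_mem_PX (C_mem_PX e4)
  have h7 : (Polynomial.X * Polynomial.C (dQ κ k0 k1 f)).coeff 1 = dQ κ k0 k1 f := by
    rw [show (1 : ℕ) = 0 + 1 from rfl, Polynomial.coeff_X_mul, Polynomial.coeff_C_zero]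
  rw [h7, dQ_mem κ k0 k1 hr, mul_div_cancel₀ _ k0.ne'] at e6
  exact e6

/-- inverses of the positive integers -/
def iv (S : Sp) (j : ℕ) : QS S := Ring.inverse (((j + 1 : ℕ) : QS S))

theorem iv_mul (j : ℕ) : iv S j * ((j : QS S) + 1) = 1 := by
  have h1 : ((j : QS S) + 1) = ((j + 1 : ℕ) : QS S) := by
    rw [Nat.cast_add, Nat.cast_one]
  rw [h1]
  exact Ring.inverse_mul_cancel _ (Helper50.CV.isUnit_nat (j + 1) (Nat.succ_pos j))

theorem iv_known (j : ℕ) (A : S.L) : dg (iv S j) 1 ≤ A := by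
  refine (dg_inv_le (iv_mul j) le_rfl).trans ?_
  exact (Kn S 1 le_rfl A).add_mem (natCast_mem (Kn S 1 le_rfl A) j) (Kn S 1 le_rfl A).one_mem

theorem iv_map {T : Sp} (p : Pj T S) (j : ℕ) : p.qs (iv S j) = iv T j := by
  have h1 : p.qs (iv S j) * ((j : QS T) + 1) = 1 := by
    have h2 := congrArg p.qs (iv_mul (S := S) j)
    rw [map_mul, map_add, map_natCast, map_one] at h2
    exact h2
  have h2 := iv_mul (S := T) j
  calc p.qs (iv S j) = p.qs (iv S j) * (iv T j * ((j : QS T) + 1)) := by rw [h2, mul_one]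
    _ = iv T j * (p.qs (iv S j) * ((j : QS T) + 1)) := by ring
    _ = iv T j := by rw [h1, mul_one]

theorem ant_mem_PX {k : ℕ} {A : S.L} {P : Polynomial (QS S)} (hP : P ∈ PX A) : ant (k := k) (iv S) P ∈ PX A := by
  unfold ant
  apply Subring.sum_mem
  intro j _
  exact Subring.mul_mem _ (C_mem_PX ((Kn S 1 le_rfl A).mul_mem (mem_PX.mp hP j) (iv_known j A)))
    (Subring.pow_mem _ X_mem_PX _)

/-- interpolation polynomials are known -/
theorem itp_mem_PX {k : ℕ} {A : S.L} {x b : Fin k → QS S} (hx : ∀ i, dg (x i) 1 ≤ A) (hb : ∀ i, dg (b i) 1 ≤ A)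
    (hu : IsUnit (Matrix.vandermonde x).det) : itp x b ∈ PX A := by
  unfold itp
  apply cpl_mem_PX
  intro j
  show dg (∑ i, (Matrix.vandermonde x)⁻¹ j i * b i) 1 ≤ _
  apply (Kn S 1 le_rfl A).sum_mem
  intro i _
  apply (Kn S 1 le_rfl A).mul_mem _ (hb i)
  apply inv_mem _ le_rfl _ _ hu
  intro i j
  rw [Matrix.vandermonde_apply]
  exact (Kn S 1 le_rfl A).pow_mem (hx i) _

end

end Pool.Agent.Helper96.FLC
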