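import Pool.Agent.Helper96.FLC.Rc
import Pool.Agent.Helper96.FLC.Px
import Pool.Agent.Helper96.FLT.Th
import Pool.Agent.Helper50.VC.SloV

/-! Exact entropy calculus: second jets of curved lines, the line pair lemma: the difference of two parallel lines is
small, and it is linear in the distance up to second order. -/

set_option autoImplicit false

namespace Pool.Agent.Helper96.FLC

open Pool.Agent.Helper31.EC QS Pool.Agent.Helper38.NS Pool.Agent.Helper96.FLT Pool.Agent.Helper50.VC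

noncomputable section

variable {S : Sp} {d k N : ℕ}

/-- order of the second jets of a coordinate of weight `w` -/
def mm (w : ℝ) : ℝ := min 2 (w - 1)

theorem mm_nonneg {w : ℝ} (h : 1 ≤ w) : 0 ≤ mm w := le_min (by norm_num) (by linarith)

theorem mm_le (w : ℝ) : mm w ≤ 2 := min_le_left _ _

theorem min_mm (w : ℝ) : min 1 (mm w) = min 1 (w - 1) := by
  unfold mm
  rw [← min_assoc]
  norm_num

/-- derivative of the curve at the point -/
def dz (s : VB S d k N) (n : Fin N) : QS S := (Polynomial.derivative (cpl (s.c n))).eval s.t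

theorem qs_dz {T : Sp} (p : Pj T S) (s : VB S d k N) (n : Fin N) :
    p.qs (dz s n) = (Polynomial.derivative (cpl fun j => p.qs (s.c n j))).eval (p.qs s.t) := by
  unfold dz
  rw [← Polynomial.eval_map_apply, ← Polynomial.derivative_map, cpl_map]

/-- SECOND JETS of order `min 2 (w - 1)` up to the scale `r1`: the derivative of the curve is a linear function of the
direction (F4), and along each curve the first jet is a linear function (F3) -/
structure J2 (s : VB S d k N) (W : Fin N → ℝ) (r1 : ℝ) where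
  c1 : Fin N → Fin (d + 1) → QS S
  c2 : Fin N → Fin (d + 1) → Fin (d + 1) → QS S
  k1 : ∀ n a, dg (c1 n a) 1 ≤ vd s.q 1
  k2 : ∀ n a b, dg (c2 n a b) 1 ≤ vd s.q 1
  F4 : ∀ n, dz s n - ∑ a, c1 n a * s.v a ∈ QS.Id S (mm (W n) * r1)
  F3 : ∀ (D : Sp) (p p' : Pj D S) (r : ℝ), 0 ≤ r → r ≤ r1 → (∀ i, p.qs (s.a i) = p'.qs (s.a i)) →
    (∀ i, p.qs (s.x i) = p'.qs (s.x i)) → (∀ n j, p.qs (s.c n j) = p'.qs (s.c n j)) →
    p'.qs s.t - p.qs s.t ∈ QS.Id D r →
    (∀ x y, I (p.map x) (p'.map y) (p.map (s.fv.iL ⊔ s.fv.iB ⊔ dg s.t r)) = 0) →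
    ∀ n a, p'.qs (c1 n a) - p.qs (c1 n a) - (p'.qs s.t - p.qs s.t) * ∑ b, p.qs (c2 n a b) * p.qs (s.v b) ∈
      QS.Id D (mm (W n) * r)

/-- the direction of the second line of a star is independent of everything on the first line -/
theorem d1g {s : VB S d k N} (hs : s.Hyp) (w : s.fv.Star) (z : S.L) :
    I (w.p2.map s.fv.iX) (w.p1.map z ⊔ w.p1.map (s.fv.iT ⊔ (s.fv.iY ⊔ s.fv.iZ))) ⊥ = 0 := by
  have h1 := w.p2.I_map s.fv.iX (s.fv.iT ⊔ (s.fv.iY ⊔ s.fv.iZ)) ⊥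
  rw [hs.s1, w.p2.map_bot, w.p2.map_sup, w.p2.map_sup, w.eT, w.eY, w.eZ, ← w.p1.map_sup,
    ← w.p1.map_sup] at h1
  have h2 := ind_add h1 (ind_symm (w.ci z s.fv.iX)) (by rw [sup_bot_eq])
  exact ind_of h2 le_rfl bot_le le_sup_left (by order)

/-- common first and second jets on a star -/
structure Cm {s : VB S d k N} {W : Fin N → ℝ} {r1 : ℝ} (j : J2 s W r1) (w : s.fv.Star) : Prop where
  e1 : ∀ n a, w.p1.qs (j.c1 n a) = w.p2.qs (j.c1 n a)
  e2 : ∀ n a b, w.p1.qs (j.c2 n a b) = w.p2.qs (j.c2 n a b)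

/-- the second derivative in the two directions of a star -/
def B2 {s : VB S d k N} {W : Fin N → ℝ} {r1 : ℝ} (j : J2 s W r1) (w : s.fv.Star) (n : Fin N) : QS w.D :=
  ∑ a, ∑ b, w.p1.qs (j.c2 n a b) * w.p1.qs (s.v b) * w.p2.qs (s.v a)

namespace ZedT

variable {s : VB S d k N} {w : s.fv.Star} {r : ℝ} (v : ZedT w r)

theorem cv1 (a : Fin (d + 1)) : v.q1.qs (w.p1.qs (s.v a)) = v.q2.qs (w.p1.qs (s.v a)) := by
  induction a using Fin.cases with
  | zero =>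
    show v.q1.qs (w.p1.qs 1) = v.q2.qs (w.p1.qs 1)
    rw [map_one, map_one, map_one]
  | succ a => exact v.cu a

theorem cv2 (a : Fin (d + 1)) : v.q1.qs (w.p2.qs (s.v a)) = v.q2.qs (w.p2.qs (s.v a)) := by
  induction a using Fin.cases with
  | zero =>
    show v.q1.qs (w.p2.qs 1) = v.q2.qs (w.p2.qs 1)
    rw [map_one, map_one, map_one]
  | succ a => exact v.cx a

/-- the two points on the common line are conditionally independent given the line and the common digits -/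
theorem ciR (hs : s.Hyp) (x y : S.L) : I ((v.q1.comp w.p1).map x) ((v.q2.comp w.p1).map y)
    ((v.q1.comp w.p1).map (s.fv.iL ⊔ s.fv.iB ⊔ dg s.t r)) = 0 := by
  simp only [Pj.comp_map]
  have h0 := v.q1.I_map (w.p2.map s.fv.iX) (w.p1.map (x ⊔ (s.fv.iL ⊔ s.fv.iB ⊔ dg s.t r)) ⊔
    w.p1.map (s.fv.iT ⊔ (s.fv.iY ⊔ s.fv.iZ))) ⊥
  rw [d1g hs w, v.q1.map_bot] at h0
  have h1 : I (v.q1.map (w.p1.map x)) v.X (v.q1.map (w.p1.map (s.fv.iL ⊔ s.fv.iB ⊔ dg s.t r))) = 0 := by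
    rw [w.p1.map_sup x, v.q1.map_sup, v.q1.map_sup] at h0
    exact ind_symm (ind_of h0 bot_le (by order) le_sup_left (by order))
  have h2 := v.ci (w.p1.map x) (w.p1.map y)
  have e1 : w.p1.map (s.fv.iL ⊔ s.fv.iB) ⊔ w.p2.map s.fv.iX ⊔ w.p1.map (dg s.t r) =
      w.p2.map s.fv.iX ⊔ w.p1.map (s.fv.iL ⊔ s.fv.iB ⊔ dg s.t r) := by
    rw [w.p1.map_sup _ (dg s.t r)]
    order
  rw [e1, v.q1.map_sup] at h2
  exact ind_of (ind_add h1 h2 rfl) le_rfl (by order) (by order) (by order)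

/-- LINE PAIR LEMMA, at a point -/
theorem lpa (hs : s.Hyp) {W : Fin N → ℝ} {r1 : ℝ} (j : J2 s W r1) (hw : Cm j w) (h0 : 0 ≤ r) (hr : r ≤ r1)
    (n : Fin N) (hn : 1 ≤ W n) :
    v.q2.qs (w.p2.qs (dz s n)) - v.q1.qs (w.p2.qs (dz s n)) - v.tau * v.q1.qs (B2 j w n) ∈
      QS.Id v.D (mm (W n) * r) := by
  have hm := mm_nonneg hn
  have e0 : mm (W n) * r ≤ mm (W n) * r1 := mul_le_mul_of_nonneg_left hr hm
  -- F4 on both stars
  have f4 : ∀ q : Pj v.D w.D, q.qs (w.p2.qs (dz s n)) - ∑ a, q.qs (w.p1.qs (j.c1 n a)) * q.qs (w.p2.qs (s.v a)) ∈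
      QS.Id v.D (mm (W n) * r) := by
    intro q
    have h1 := FV.qs_mem q (FV.qs_mem w.p2 (Id_anti e0 (j.F4 n)))
    simp only [map_sub, map_sum, map_mul] at h1
    have h2 : ∑ a, q.qs (w.p1.qs (j.c1 n a)) * q.qs (w.p2.qs (s.v a)) =
        ∑ a, q.qs (w.p2.qs (j.c1 n a)) * q.qs (w.p2.qs (s.v a)) :=
      Finset.sum_congr rfl fun a _ => by rw [hw.e1]
    rw [h2]
    exact h1
  have f3 : ∀ a, v.q2.qs (w.p1.qs (j.c1 n a)) - v.q1.qs (w.p1.qs (j.c1 n a)) -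
      v.tau * ∑ b, v.q1.qs (w.p1.qs (j.c2 n a b)) * v.q1.qs (w.p1.qs (s.v b)) ∈ QS.Id v.D (mm (W n) * r) := by
    intro a
    have h1 := j.F3 v.D (v.q1.comp w.p1) (v.q2.comp w.p1) r h0 hr (fun i => ?_) (fun i => ?_) (fun n j => ?_) ?_
      (v.ciR hs) n a
    · simp only [Pj.comp_qs] at h1
      exact h1
    · rw [Pj.comp_qs, Pj.comp_qs]
      exact v.ca i
    · rw [Pj.comp_qs, Pj.comp_qs]
      exact v.cu i
    · rw [Pj.comp_qs, Pj.comp_qs]
      exact v.cc n j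
    · rw [Pj.comp_qs, Pj.comp_qs]
      exact v.ct
  have e1 : v.q2.qs (w.p2.qs (dz s n)) - v.q1.qs (w.p2.qs (dz s n)) - v.tau * v.q1.qs (B2 j w n) =
      (v.q2.qs (w.p2.qs (dz s n)) - ∑ a, v.q2.qs (w.p1.qs (j.c1 n a)) * v.q2.qs (w.p2.qs (s.v a))) -
      (v.q1.qs (w.p2.qs (dz s n)) - ∑ a, v.q1.qs (w.p1.qs (j.c1 n a)) * v.q1.qs (w.p2.qs (s.v a))) +
      ∑ a, v.q1.qs (w.p2.qs (s.v a)) * (v.q2.qs (w.p1.qs (j.c1 n a)) - v.q1.qs (w.p1.qs (j.c1 n a)) -
        v.tau * ∑ b, v.q1.qs (w.p1.qs (j.c2 n a b)) * v.q1.qs (w.p1.qs (s.v b))) := by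
    have h1 : v.tau * v.q1.qs (B2 j w n) = ∑ a, v.q1.qs (w.p2.qs (s.v a)) * (v.tau *
        ∑ b, v.q1.qs (w.p1.qs (j.c2 n a b)) * v.q1.qs (w.p1.qs (s.v b))) := by
      unfold B2
      simp only [map_sum, map_mul, Finset.mul_sum]
      apply Finset.sum_congr rfl
      intro a _
      apply Finset.sum_congr rfl
      intro b _
      ring
    have h2 : ∑ a, v.q2.qs (w.p1.qs (j.c1 n a)) * v.q2.qs (w.p2.qs (s.v a)) =
        ∑ a, v.q1.qs (w.p2.qs (s.v a)) * v.q2.qs (w.p1.qs (j.c1 n a)) :=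
      Finset.sum_congr rfl fun a _ => by rw [← v.cv2, mul_comm]
    have h3 : ∑ a, v.q1.qs (w.p1.qs (j.c1 n a)) * v.q1.qs (w.p2.qs (s.v a)) =
        ∑ a, v.q1.qs (w.p2.qs (s.v a)) * v.q1.qs (w.p1.qs (j.c1 n a)) :=
      Finset.sum_congr rfl fun a _ => mul_comm _ _
    rw [h1, h2, h3]
    simp only [mul_sub, Finset.sum_sub_distrib]
    ring
  rw [e1]
  refine (QS.Id v.D _).add_mem ((QS.Id v.D _).sub_mem (f4 _) (f4 _)) ?_
  exact (QS.Id v.D _).sum_mem fun a _ => (QS.Id v.D _).mul_mem_left _ (f3 a)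

/-- polynomials of the two parallel lines -/
def PK (n : Fin N) : Polynomial (QS v.D) := cpl fun j => v.q1.qs (w.p2.qs (s.c n j))
def PK' (n : Fin N) : Polynomial (QS v.D) := cpl fun j => v.q2.qs (w.p2.qs (s.c n j))

/-- their difference -/
def Dl (n : Fin N) : Polynomial (QS v.D) := (v.PK' n).comp (Polynomial.X + Polynomial.C v.tau) - v.PK n

theorem derivative_Dl (n : Fin N) : Polynomial.derivative (v.Dl n) =
    (Polynomial.derivative (v.PK' n)).comp (Polynomial.X + Polynomial.C v.tau) - Polynomial.derivative (v.PK n) := by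
  unfold Dl
  rw [Polynomial.derivative_sub, Polynomial.derivative_comp, Polynomial.derivative_add, Polynomial.derivative_X,
    Polynomial.derivative_C, add_zero, one_mul]

/-- the first height -/
def t0 : QS v.D := v.q1.qs (w.p1.qs s.t)

theorem t0_add : v.t0 + v.tau = v.q2.qs (w.p1.qs s.t) := by
  unfold t0 tau
  ring

theorem derivative_Dl_eval (n : Fin N) : (Polynomial.derivative (v.Dl n)).eval v.t0 =
    v.q2.qs (w.p2.qs (dz s n)) - v.q1.qs (w.p2.qs (dz s n)) := by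
  have ct : w.p1.qs s.t = w.p2.qs s.t := w.ct
  rw [v.derivative_Dl, Polynomial.eval_sub, Polynomial.eval_comp, Polynomial.eval_add, Polynomial.eval_X,
    Polynomial.eval_C, v.t0_add, ct]
  have h1 := qs_dz (v.q2.comp w.p2) s n
  have h2 := qs_dz (v.q1.comp w.p2) s n
  simp only [Pj.comp_qs] at h1 h2
  rw [h1, h2]
  unfold PK PK' t0
  rw [ct]

theorem derivative_Dl_known (hs : s.Hyp) (n : Fin N) :
    Polynomial.derivative (v.Dl n) ∈ PX (v.K' ⊔ v.U ⊔ dg v.tau 1) := by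
  rw [v.derivative_Dl]
  apply Subring.sub_mem
  · apply comp_mem_PX
    · apply derivative_mem_PX
      apply cpl_mem_PX
      intro j
      have h1 : dg (v.q2.qs (w.p2.qs (s.c n j))) 1 ≤ v.K' := by
        rw [v.q2.qs_dg, w.p2.qs_dg]
        exact v.q2.map_mono (w.p2.map_mono ((dg_le_vd s.cf 1 (n, j)).trans hs.vc))
      order
    · exact Subring.add_mem _ X_mem_PX (C_mem_PX le_sup_right)
  · apply derivative_mem_PX'
    intro j
    unfold PK
    rw [cpl_coeff]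
    split_ifs with h
    · exact v.lcK hs n ⟨j, Nat.lt_of_succ_lt_succ h⟩
    · exact (Kn v.D 1 le_rfl _).zero_mem

theorem derivative_Dl_known' (hs : s.Hyp) (n : Fin N) :
    Polynomial.derivative (v.Dl n) ∈ PX (v.q2.map (w.p2.map s.fv.iL) ⊔ v.U ⊔ dg v.tau 1) := by
  rw [v.derivative_Dl]
  apply Subring.sub_mem
  · apply comp_mem_PX
    · apply derivative_mem_PX'
      intro j
      unfold PK'
      rw [cpl_coeff]
      split_ifs with h
      · have h1 : dg (v.q2.qs (w.p2.qs (s.c n ⟨j + 1, h⟩))) 1 ≤ v.q2.map (w.p2.map s.fv.iL) := by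
          rw [v.q2.qs_dg, w.p2.qs_dg]
          exact v.q2.map_mono (w.p2.map_mono (hs.hF n ⟨j, Nat.lt_of_succ_lt_succ h⟩))
        order
      · exact (Kn v.D 1 le_rfl _).zero_mem
    · exact Subring.add_mem _ X_mem_PX (C_mem_PX le_sup_right)
  · apply derivative_mem_PX'
    intro j
    unfold PK
    rw [cpl_coeff]
    split_ifs with h
    · have h1 : dg (v.q1.qs (w.p2.qs (s.c n ⟨j + 1, h⟩))) 1 ≤ v.q1.map (w.p2.map s.fv.iL) := by
        rw [v.q1.qs_dg, w.p2.qs_dg]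
        exact v.q1.map_mono (w.p2.map_mono (hs.hF n ⟨j, Nat.lt_of_succ_lt_succ h⟩))
      have h2 := v.lK
      order
    · exact (Kn v.D 1 le_rfl _).zero_mem

theorem h_t0 (hs : s.Hyp) (h0 : 0 ≤ r) (hr : r ≤ 1) : h (dg v.t0 1) (v.K' ⊔ v.U ⊔ dg v.tau 1) = 1 := by
  have h1 := I_zero_iff_h.mp (v.e4 hs h0 hr)
  rw [sup_bot_eq, h_bot, v.HT0 hs] at h1
  rw [v.T0_eq] at h1
  exact h1

/-- LINE PAIR LEMMA: the higher coefficients of the difference are small -/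
theorem lpb (hs : s.Hyp) {W : Fin N → ℝ} {r1 : ℝ} (j : J2 s W r1) (hw : Cm j w) (h0 : 0 ≤ r) (hr : r ≤ r1)
    (hr1 : r1 ≤ 1) (n : Fin N) (hn : 1 ≤ W n) (i : ℕ) :
    (v.Dl n).coeff (i + 1) ∈ QS.Id v.D (min 1 (mm (W n)) * r) := by
  have hm := mm_nonneg hn
  have a1 : min 1 (mm (W n)) * r ≤ mm (W n) * r := mul_le_mul_of_nonneg_right (min_le_right _ _) h0
  have a2 : min 1 (mm (W n)) * r ≤ r := by
    have := mul_le_mul_of_nonneg_right (min_le_left 1 (mm (W n))) h0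
    rwa [one_mul] at this
  apply coeff_of_derivative _ (iv v.D) iv_mul
  apply poly_real (v.derivative_Dl_known hs n) (v.h_t0 hs h0 (hr.trans hr1)) (a2.trans (hr.trans hr1))
  rw [v.derivative_Dl_eval]
  have h1 := Id_anti a1 (v.lpa hs j hw h0 hr n hn)
  have h2 : v.tau * v.q1.qs (B2 j w n) ∈ QS.Id v.D (min 1 (mm (W n)) * r) :=
    (QS.Id v.D _).mul_mem_right _ (Id_anti a2 (v.tau_mem))
  have h3 := (QS.Id v.D _).add_mem h1 h2
  rw [sub_add_cancel] at h3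
  exact h3

/-- the family of the common data of the copies -/
def fam : (Fin d ⊕ Fin d ⊕ (Fin N × Fin (k + 1)) ⊕ (Fin N × Fin k) ⊕ Fin d ⊕ Unit) → QS v.D :=
  Sum.elim (fun i => v.q2.qs (w.p2.qs (s.a i))) (Sum.elim (fun i => v.q2.qs (w.p2.qs (s.x i)))
    (Sum.elim (fun i => v.q2.qs (w.p2.qs (s.cf i))) (Sum.elim (fun i => v.q1.qs (w.p2.qs (cS s i)))
      (Sum.elim (fun i => v.q1.qs (w.p1.qs (s.x i))) (fun _ : Unit => v.tau)))))

theorem vd_fam (hs : s.Hyp) : vd v.fam 1 = v.K' ⊔ v.U ⊔ dg v.tau 1 := by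
  have h7 : vd (fun i => v.q1.qs (w.p2.qs (cS s i))) 1 ≤ v.K' ⊔ v.U ⊔ dg v.tau 1 := by
    rw [vd_le]
    exact fun i => v.lcK hs i.1 i.2
  obtain ⟨G', hG'⟩ : ∃ G', G' = vd (fun i => v.q1.qs (w.p2.qs (cS s i))) 1 := ⟨_, rfl⟩
  unfold fam
  rw [vd_sum, vd_sum, vd_sum, vd_sum, vd_sum, vd_unit, ← hG', v.q2.qs_vd, v.q2.qs_vd, v.q2.qs_vd, v.q1.qs_vd,
    w.p2.qs_vd, w.p2.qs_vd, w.p2.qs_vd, w.p1.qs_vd]
  rw [← hG'] at h7
  have h1 : v.q2.map (w.p2.map (vd s.cf 1)) ≤ v.q2.map (w.p2.map (s.fv.iL ⊔ s.fv.iB)) :=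
    v.q2.map_mono (w.p2.map_mono hs.vc)
  have h1' : v.q2.map (w.p2.map s.fv.iB) ≤ v.q2.map (w.p2.map (vd s.cf 1)) :=
    v.q2.map_mono (w.p2.map_mono s.iB_le)
  have h3 : v.q2.map (w.p2.map s.fv.iL) =
      v.q2.map (w.p2.map (vd s.a 1)) ⊔ v.q2.map (w.p2.map (vd s.x 1)) := by
    unfold FV.iL
    rw [w.p2.map_sup, v.q2.map_sup]
    rfl
  have h4 : v.K' = v.q2.map (w.p2.map s.fv.iL) ⊔ v.q2.map (w.p2.map s.fv.iB) := by
    unfold ZedT.K'
    rw [w.p2.map_sup, v.q2.map_sup]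
  have h4' : v.q2.map (w.p2.map (s.fv.iL ⊔ s.fv.iB)) = v.K' := rfl
  rw [h4'] at h1
  have h5 : v.U = v.q1.map (w.p1.map (vd s.x 1)) := rfl
  rw [h5] at h7 ⊢
  order

section copies

variable (C : CQ v.D v.fam k)

theorem com_c (i : Fin (k + 1)) (n : Fin N) (j : Fin (k + 1)) :
    (C.p i).qs (v.q2.qs (w.p2.qs (s.c n j))) = (C.p 0).qs (v.q2.qs (w.p2.qs (s.c n j))) :=
  C.com i 0 (Sum.inr (Sum.inr (Sum.inl (n, j))))

theorem com_cG (i : Fin (k + 1)) (n : Fin N) (j : Fin k) :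
    (C.p i).qs (v.q1.qs (w.p2.qs (s.c n j.succ))) = (C.p 0).qs (v.q1.qs (w.p2.qs (s.c n j.succ))) :=
  C.com i 0 (Sum.inr (Sum.inr (Sum.inr (Sum.inl (n, j)))))

theorem com_a (i : Fin (k + 1)) (l : Fin d) :
    (C.p i).qs (v.q2.qs (w.p2.qs (s.a l))) = (C.p 0).qs (v.q2.qs (w.p2.qs (s.a l))) := C.com i 0 (Sum.inl l)

theorem com_x (i : Fin (k + 1)) (l : Fin d) :
    (C.p i).qs (v.q2.qs (w.p2.qs (s.x l))) = (C.p 0).qs (v.q2.qs (w.p2.qs (s.x l))) := C.com i 0 (Sum.inr (Sum.inl l))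

theorem com_u (i : Fin (k + 1)) (l : Fin d) :
    (C.p i).qs (v.q1.qs (w.p1.qs (s.x l))) = (C.p 0).qs (v.q1.qs (w.p1.qs (s.x l))) :=
  C.com i 0 (Sum.inr (Sum.inr (Sum.inr (Sum.inr (Sum.inl l)))))

theorem com_tau (i : Fin (k + 1)) : (C.p i).qs v.tau = (C.p 0).qs v.tau :=
  C.com i 0 (Sum.inr (Sum.inr (Sum.inr (Sum.inr (Sum.inr ())))))

theorem derivative_cpl_congr {T : Sp} {c c' : Fin (k + 1) → QS T} (h : ∀ j : Fin k, c j.succ = c' j.succ) :
    Polynomial.derivative (cpl c) = Polynomial.derivative (cpl c') := by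
  ext m
  rw [Polynomial.coeff_derivative, Polynomial.coeff_derivative, cpl_coeff, cpl_coeff]
  split_ifs with hm
  · have h1 := h ⟨m, Nat.lt_of_succ_lt_succ hm⟩
    have h2 : (Fin.succ ⟨m, Nat.lt_of_succ_lt_succ hm⟩ : Fin (k + 1)) = ⟨m + 1, hm⟩ := rfl
    rw [h2] at h1
    rw [h1]
  · rfl

/-- the derivative of the difference is common for all copies -/
theorem com_Dl (i : Fin (k + 1)) (n : Fin N) :
    (Polynomial.derivative (v.Dl n)).map (C.p i).qs = (Polynomial.derivative (v.Dl n)).map (C.p 0).qs := by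
  rw [v.derivative_Dl, Polynomial.map_sub, Polynomial.map_sub, Polynomial.map_comp, Polynomial.map_comp,
    ← Polynomial.derivative_map, ← Polynomial.derivative_map, ← Polynomial.derivative_map, ← Polynomial.derivative_map,
    Polynomial.map_add, Polynomial.map_add, Polynomial.map_X, Polynomial.map_X, Polynomial.map_C, Polynomial.map_C,
    v.com_tau C i]
  unfold PK PK'
  rw [cpl_map, cpl_map, cpl_map, cpl_map]
  have h1 : (fun j => (C.p i).qs (v.q2.qs (w.p2.qs (s.c n j)))) = fun j => (C.p 0).qs (v.q2.qs (w.p2.qs (s.c n j))) :=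
    funext fun j => v.com_c C i n j
  rw [h1, derivative_cpl_congr (c := fun j => (C.p i).qs (v.q1.qs (w.p2.qs (s.c n j))))
    (c' := fun j => (C.p 0).qs (v.q1.qs (w.p2.qs (s.c n j)))) (fun j => v.com_cG C i n j)]

theorem Dl_natDegree (n : Fin N) : (v.Dl n).natDegree ≤ k := by
  unfold Dl
  refine (Polynomial.natDegree_sub_le _ _).trans (max_le ?_ (cpl_natDegree _ k le_rfl))
  refine Polynomial.natDegree_comp_le.trans ?_
  have h1 : (Polynomial.X + Polynomial.C v.tau).natDegree ≤ 1 := by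
    refine (Polynomial.natDegree_add_le _ _).trans (max_le Polynomial.natDegree_X_le ?_)
    rw [Polynomial.natDegree_C]
    exact Nat.zero_le _
  have h2 : (v.PK' n).natDegree ≤ k := cpl_natDegree _ k le_rfl
  calc _ ≤ k * 1 := Nat.mul_le_mul h2 h1
    _ = k := mul_one k

/-- interpolation of the second derivatives at the other copies -/
def Lam {W : Fin N → ℝ} {r1 : ℝ} (j : J2 s W r1) (n : Fin N) : Polynomial (QS C.W) :=
  itp (fun i : Fin k => (C.p i.succ).qs v.t0) (fun i : Fin k => (C.p i.succ).qs (v.q1.qs (B2 j w n)))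

theorem vdm (hs : s.Hyp) (h0 : 0 ≤ r) (hr : r ≤ 1) :
    IsUnit (Matrix.vandermonde fun i : Fin k => (C.p i.succ).qs v.t0).det := by
  have h1 : h (dg v.t0 1) (vd v.fam 1) = 1 := by
    rw [v.vd_fam hs]
    exact v.h_t0 hs h0 hr
  exact ((C.rl_one v.t0 h1).comp Fin.succ (Fin.succ_injective _)).isUnit_vandermonde

/-- LINE PAIR LEMMA of second order -/
theorem lpc (hs : s.Hyp) {W : Fin N → ℝ} {r1 : ℝ} (j : J2 s W r1) (hw : Cm j w) (h0 : 0 ≤ r) (hr : r ≤ r1)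
    (hr1 : r1 ≤ 1) (n : Fin N) (hn : 1 ≤ W n) (m : ℕ) :
    ((Polynomial.derivative (v.Dl n)).map (C.p 0).qs - Polynomial.C ((C.p 0).qs v.tau) * v.Lam C j n).coeff m ∈
      QS.Id C.W (mm (W n) * r) := by
  apply coeff_mem_of_eval _ (fun i : Fin k => (C.p i.succ).qs v.t0) (v.vdm C hs h0 (hr.trans hr1))
  · intro i hi
    rw [Polynomial.coeff_sub, Polynomial.coeff_C_mul, Polynomial.coeff_map, Polynomial.coeff_derivative,
      Polynomial.coeff_eq_zero_of_natDegree_lt (lt_of_le_of_lt (v.Dl_natDegree n) (Nat.lt_succ_of_le hi)), zero_mul,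
      map_zero]
    unfold Lam
    rw [itp_coeff_of_ge _ _ hi, mul_zero, sub_zero]
  · intro i
    unfold Lam
    rw [Polynomial.eval_sub, Polynomial.eval_mul, Polynomial.eval_C,
      itp_eval _ _ (v.vdm C hs h0 (hr.trans hr1)) i, ← v.com_Dl C i.succ, Polynomial.eval_map_apply,
      v.derivative_Dl_eval, ← v.com_tau C i.succ, ← map_mul, ← map_sub]
    exact FV.qs_mem _ (v.lpa hs j hw h0 hr n hn)

end copies

end ZedT

end

end Pool.Agent.Helper96.FLC
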