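import Pool.Agent.Helper96.FLC.Sw

/-! Exact entropy calculus: rule S on a rectangle of two small sides, curved lines: the weights smaller than two. -/

set_option autoImplicit false

namespace Pool.Agent.Helper96.FLC

open Pool.Agent.Helper31.EC QS Pool.Agent.Helper38.NS Pool.Agent.Helper96.FLT Pool.Agent.Helper50.VC

noncomputable section

variable {S : Sp} {d k N : ℕ}

/-- differences of values of a polynomial with known derivative -/
theorem sub_eval_known {A : S.L} {P : Polynomial (QS S)} (hP : Polynomial.derivative P ∈ PX A) {x y : QS S}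
    (hx : dg x 1 ≤ A) (hy : dg y 1 ≤ A) : dg (P.eval x - P.eval y) 1 ≤ A := by
  have h1 : ∀ z, P.eval z = (P - Polynomial.C (P.coeff 0)).eval z + P.coeff 0 := by
    intro z
    rw [Polynomial.eval_sub, Polynomial.eval_C, sub_add_cancel]
  have h2 : P - Polynomial.C (P.coeff 0) ∈ PX A := by
    rw [mem_PX]
    intro j
    rcases Nat.eq_zero_or_pos j with rfl | hj
    · rw [Polynomial.coeff_sub, Polynomial.coeff_C_zero, sub_self]
      exact (Kn S 1 le_rfl A).zero_mem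
    · obtain ⟨i, rfl⟩ := Nat.exists_eq_succ_of_ne_zero hj.ne'
      rw [Polynomial.coeff_sub, Polynomial.coeff_C_succ, sub_zero]
      have h3 := mem_PX.mp hP i
      rw [Polynomial.coeff_derivative] at h3
      have h4 : P.coeff (i + 1) = iv S i * (P.coeff (i + 1) * (i + 1)) := by
        rw [mul_left_comm, iv_mul i, mul_one]
      rw [Nat.succ_eq_add_one, h4]
      exact (Kn S 1 le_rfl A).mul_mem (iv_known i A) h3
  rw [h1 x, h1 y, add_sub_add_right_eq_sub]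
  exact (Kn S 1 le_rfl A).sub_mem (eval_known h2 hx) (eval_known h2 hy)

namespace RctT

variable {s : VB S d k N} {w : s.fv.Star} {r ρ : ℝ} {v : ZedT w r} (g : RctT v ρ)

theorem tau_known : dg g.tau 1 ≤ g.L ⊔ g.U ⊔ g.T0 ⊔ g.T1 ⊔ dg g.tau 1 := le_sup_right

/-- base line of the second transversal -/
theorem lR1 : g.s2.map (v.q2.map (w.p1.map s.fv.iL)) ≤ g.L ⊔ g.U ⊔ g.T1 := by
  have h1 : v.q2.map (w.p1.map s.fv.iL) = v.q1.map (w.p1.map s.fv.iL) := by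
    unfold FV.iL
    rw [w.p1.map_sup, v.q1.map_sup, v.q2.map_sup, ← w.p1.qs_vd, ← w.p1.qs_vd, ← v.q1.qs_vd, ← v.q1.qs_vd,
      ← v.q2.qs_vd, ← v.q2.qs_vd]
    have h2 : vd (fun i => v.q2.qs (w.p1.qs (s.fv.a i))) 1 = vd (fun i => v.q1.qs (w.p1.qs (s.fv.a i))) 1 :=
      (vd_congr v.ca 1).symm
    have h3 : vd (fun i => v.q2.qs (w.p1.qs (s.fv.x i))) 1 = vd (fun i => v.q1.qs (w.p1.qs (s.fv.x i))) 1 :=
      (vd_congr v.cu 1).symm
    rw [h2, h3]
  rw [h1]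
  have h4 := g.s2.map_mono (v.q1.map_mono w.la)
  rw [v.q1.map_sup, v.q1.map_sup, g.s2.map_sup, g.s2.map_sup, g.eL] at h4
  have h5 : g.s2.map (v.q1.map (w.p1.map s.fv.iX)) = g.U := g.eU
  rw [h5] at h4
  exact h4

section sides

variable (hs : s.Hyp) (h0 : 0 ≤ r) (hr : r ≤ 1) (hρ : ρ ≤ 1)

/-- coefficients of the difference of the transversals -/
theorem sw_known (n : Fin N) : Polynomial.derivative ((g.sw hs h0 hr hρ).Dl n) ∈ PX (g.L ⊔ g.U ⊔ g.T0 ⊔ g.T1) := by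
  refine PX_mono ?_ ((g.sw hs h0 hr hρ).derivative_Dl_known' hs n)
  have h1 := g.lR1
  have h2 : (g.sw hs h0 hr hρ).q2.map ((swapS w).p2.map s.fv.iL) = g.s2.map (v.q2.map (w.p1.map s.fv.iL)) :=
    Pj.comp_map _ _ _
  have h3 : (g.sw hs h0 hr hρ).U ≤ g.L := by
    have h4 : (g.sw hs h0 hr hρ).U = g.s1.map (v.q2.map (w.p2.map s.fv.iX)) := Pj.comp_map _ _ _
    rw [h4, v.eX]
    have h5 : v.X ≤ v.q1.map (w.p2.map s.fv.iL) := v.q1.map_mono (w.p2.map_mono le_sup_right)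
    exact g.s1.map_mono h5
  have h4 := g.al_le
  rw [h2, g.sw_tau hs h0 hr hρ]
  order

include hs in
/-- coefficients of the difference of the parallel lines -/
theorem Dl_known (n : Fin N) :
    Polynomial.derivative ((v.Dl n).map g.s1.qs) ∈ PX (g.L ⊔ g.U ⊔ dg g.tau 1) := by
  rw [Polynomial.derivative_map]
  refine PX_mono ?_ (map_mem_PX g.s1 (v.derivative_Dl_known' hs n))
  have h1 := g.lKz
  have h2 : g.s1.map v.U = g.U := rfl
  rw [g.s1.map_sup, g.s1.map_sup, g.etau1, h2]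
  order

include hs h0 hr hρ in
/-- the difference of the upper edges is known -/
theorem b_known (n : Fin N) : dg (g.b1 n - g.b0 n) 1 ≤ g.L ⊔ g.U ⊔ g.T0 ⊔ g.T1 ⊔ dg g.tau 1 := by
  have t0 := g.T0_eq
  have t1 := g.T1_eq
  rw [g.loop hs h0 hr hρ n]
  apply (Kn g.D 1 le_rfl _).add_mem
  · apply sub_eval_known (PX_mono le_sup_left (g.sw_known hs h0 hr hρ n))
    · order
    · apply (Kn g.D 1 le_rfl _).add_mem
      · show dg g.t0 1 ≤ _
        order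
      · show dg g.tau 1 ≤ _
        exact le_sup_right
  · apply sub_eval_known (PX_mono (A := g.L ⊔ g.U ⊔ dg g.tau 1) (by order) (g.Dl_known hs n))
    · order
    · order

variable {W : Fin N → ℝ} {r1 : ℝ} (j : J2 s W r1)

include hs h0 hr hρ j in
/-- the first part of the loop -/
theorem part1 (hw : Cm j w) (h0' : 0 ≤ ρ) (hρ' : ρ ≤ r1) (hr1 : r1 ≤ 1) (n : Fin N) (hn : 1 ≤ W n) :
    ((g.sw hs h0 hr hρ).Dl n).eval g.t0 - ((g.sw hs h0 hr hρ).Dl n).eval (g.t0 + g.tau) ∈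
      QS.Id g.D (r + min 1 (mm (W n)) * ρ) := by
  obtain ⟨c, hc, e⟩ := eval_sub_mem (QS.Id g.D (min 1 (mm (W n)) * ρ)) ((g.sw hs h0 hr hρ).Dl n)
    (fun i => (g.sw hs h0 hr hρ).lpb hs j hw.swap h0' hρ' hr1 n hn i) g.t0 (g.t0 + g.tau)
  rw [e]
  apply mul_mem_Id _ hc
  have h1 : g.t0 - (g.t0 + g.tau) = -g.tau := by ring
  rw [h1]
  exact (QS.Id g.D r).neg_mem (g.tau_mem hr)

include hs h0 j in
/-- the second part of the loop, first order -/
theorem part2 (hw : Cm j w) (hr' : r ≤ r1) (hr1 : r1 ≤ 1) (n : Fin N) (hn : 1 ≤ W n) :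
    ((v.Dl n).map g.s1.qs).eval g.t1 - ((v.Dl n).map g.s1.qs).eval g.t0 ∈
      QS.Id g.D (ρ + min 1 (mm (W n)) * r) := by
  obtain ⟨c, hc, e⟩ := eval_sub_mem (QS.Id g.D (min 1 (mm (W n)) * r)) ((v.Dl n).map g.s1.qs)
    (fun i => by
      rw [Polynomial.coeff_map]
      exact FV.qs_mem _ (v.lpb hs j hw h0 hr' hr1 n hn i)) g.t1 g.t0
  rw [e]
  exact mul_mem_Id g.al_mem hc

include hs h0 j in
/-- the second part of the loop, second order -/
theorem part2' (hw : Cm j w) (hr' : r ≤ r1) (hr1 : r1 ≤ 1) (n : Fin N) (hn : 1 ≤ W n) :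
    ((v.Dl n).map g.s1.qs).eval g.t1 - ((v.Dl n).map g.s1.qs).eval g.t0 -
      g.al * g.s1.qs (v.q2.qs (w.p2.qs (dz s n)) - v.q1.qs (w.p2.qs (dz s n))) ∈
      QS.Id g.D (ρ + ρ + min 1 (mm (W n)) * r) := by
  obtain ⟨c, hc, e⟩ := eval_sub_sq (QS.Id g.D (min 1 (mm (W n)) * r)) ((v.Dl n).map g.s1.qs)
    (fun i => by
      rw [Polynomial.coeff_map]
      exact FV.qs_mem _ (v.lpb hs j hw h0 hr' hr1 n hn i)) g.t1 g.t0
  have h1 : (Polynomial.derivative ((v.Dl n).map g.s1.qs)).eval g.t0 =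
      g.s1.qs (v.q2.qs (w.p2.qs (dz s n)) - v.q1.qs (w.p2.qs (dz s n))) := by
    rw [← v.derivative_Dl_eval, Polynomial.derivative_map]
    exact Polynomial.eval_map_apply _ _
  rw [e, h1]
  have h2 : g.t1 - g.t0 = g.al := rfl
  rw [h2, add_sub_cancel_left]
  exact mul_mem_Id (mul_mem_Id g.al_mem g.al_mem) hc

end sides

open Classical in
/-- GENERAL FORM: rule S applied to a rectangle of curved lines -/
theorem noise (hs : s.Hyp) {W : Fin N → ℝ} (hW : s.fv.RuleS W) (h0 : 0 ≤ r) (hr : r ≤ 1) (h0' : 0 ≤ ρ)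
    (hρ : ρ ≤ 1) (J : Finset (Fin N)) {σ : ℝ} (hσ : 0 ≤ σ) (hσ1 : ∀ i, W i * σ ≤ 1) (f : Fin N → QS g.D)
    (hf : ∀ i, dg (f i) 1 ≤ g.L ⊔ g.U ⊔ g.T0 ⊔ dg g.tau 1)
    (hC : ∀ i, i ∉ J → g.b1 i - g.b0 i ∈ QS.Id g.D (W i * σ))
    (hA : ∀ i, i ∈ J → g.b1 i - g.b0 i - g.al * f i ∈ QS.Id g.D (W i * σ)) (i : Fin N) (hi : i ∈ J) :
    f i ∈ QS.Id g.D (W i * σ - ρ) := by
  obtain ⟨B, hB⟩ : ∃ B, B = g.L ⊔ g.U ⊔ g.T0 ⊔ dg g.tau 1 := ⟨_, rfl⟩
  obtain ⟨u, hu⟩ : ∃ u : Fin N → QS g.D, u = fun i => if i ∈ J then f i else 0 := ⟨_, rfl⟩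
  obtain ⟨e, he⟩ : ∃ e : Fin N → QS g.D, e = fun i => g.b1 i - g.b0 i - g.al * u i := ⟨_, rfl⟩
  rw [← hB] at hf
  have hL : (g.s1.comp v.q1).map (w.p2.map s.fv.iL) = g.L := Pj.comp_map _ _ _
  have hL' : ((g.s1.comp v.q1).comp w.p2).map s.fv.iL = g.L := by
    rw [Pj.comp_map, hL]
  have lal := g.al_le
  have hal := g.al_mem
  have uB : vd u 1 ≤ B := by
    rw [vd_le]
    intro j
    rw [hu]
    beta_reduce
    split_ifs with hj
    · exact hf j
    · have h1 : (0 : QS g.D) ∈ Kn g.D 1 le_rfl B := (Kn g.D 1 le_rfl B).zero_mem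
      exact mem_Kn.mp h1
  have eB : vd e 1 ≤ g.L ⊔ g.U ⊔ g.T0 ⊔ g.T1 ⊔ dg g.tau 1 := by
    rw [vd_le]
    intro j
    rw [he]
    beta_reduce
    apply (Kn g.D 1 le_rfl _).sub_mem (g.b_known hs h0 hr hρ j)
    apply (Kn g.D 1 le_rfl _).mul_mem
    · show dg g.al 1 ≤ _
      order
    · show dg (u j) 1 ≤ _
      have h1 := (dg_le_vd u 1 j).trans uB
      rw [hB] at h1
      order
  have key := hW g.D ((g.s1.comp v.q1).comp w.p2) ((g.s2.comp v.q1).comp w.p2) g.al u e B ρ σ h0' hρ hσ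
    hσ1
  simp only [Pj.comp_qs] at key
  have e1 : ((g.s1.comp v.q1).comp w.p2).map s.fv.iB = vd g.b0 1 := by
    rw [Pj.comp_map, Pj.comp_map]
    unfold FV.iB
    rw [← w.p2.qs_vd, ← v.q1.qs_vd, ← g.s1.qs_vd]
    rfl
  have e2 : ((g.s2.comp v.q1).comp w.p2).map s.fv.iB = vd g.b1 1 := by
    rw [Pj.comp_map, Pj.comp_map]
    unfold FV.iB
    rw [← w.p2.qs_vd, ← v.q1.qs_vd, ← g.s2.qs_vd]
    rfl
  rw [hL', e1, e2] at key
  have h1 := key (fun j => g.aa j) (fun j => g.ax j) ?_ hal ?_ uB ?_ ?_ ?_ ?_ i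
  · rw [hu] at h1
    beta_reduce at h1
    rw [if_pos hi] at h1
    exact h1
  · intro j
    have h2 : g.s2.qs (v.q1.qs (w.p2.qs (s.fv.b j))) = g.b1 j := rfl
    have h3 : g.s1.qs (v.q1.qs (w.p2.qs (s.fv.b j))) = g.b0 j := rfl
    rw [h2, h3, he]
    ring
  · rw [hB]
    order
  · apply le_antisymm (h_dg_of_mem hρ hal _)
    rw [← g.h_al hs h0 hr h0' hρ]
    apply h_anti
    have hK := g.K0_eq
    rw [hB]
    order
  · intro j
    rw [he, hu]
    beta_reduce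
    split_ifs with hj
    · exact hA j hj
    · rw [mul_zero, sub_zero]
      exact hC j hj
  · have h2 := g.c1 hs h0 hr hρ
    exact ind_of h2 le_rfl (by order) (by order) (by rw [hB]; order)
  · have h2 := g.c2 hs h0 hr hρ
    exact ind_of h2 le_rfl (by order) (by order) (by rw [hB]; order)

/-- difference of the derivatives of the two parallel lines -/
def dd (n : Fin N) : QS g.D := g.s1.qs (v.q2.qs (w.p2.qs (dz s n)) - v.q1.qs (w.p2.qs (dz s n)))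

theorem dd_eq (n : Fin N) : g.dd n = (Polynomial.derivative ((v.Dl n).map g.s1.qs)).eval g.t0 := by
  unfold dd
  rw [← v.derivative_Dl_eval, Polynomial.derivative_map]
  exact (Polynomial.eval_map_apply _ _).symm

theorem dd_known (hs : s.Hyp) (n : Fin N) : dg (g.dd n) 1 ≤ g.L ⊔ g.U ⊔ g.T0 ⊔ dg g.tau 1 := by
  rw [g.dd_eq]
  have t0 := g.T0_eq
  apply eval_known (PX_mono (A := g.L ⊔ g.U ⊔ dg g.tau 1) (by order) (g.Dl_known hs n))
  order

include g in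
/-- RULE S with two small sides -/
theorem noiseA (hs : s.Hyp) {W : Fin N → ℝ} (hW : s.fv.RuleS W) {r1 : ℝ} (j : J2 s W r1) (hw : Cm j w) (h0 : 0 ≤ r)
    (hr : r ≤ r1) (h0' : 0 ≤ ρ) (hρ : ρ ≤ r1) (hr1 : r1 ≤ 1) (hn : ∀ i, 1 ≤ W i) (J : Finset (Fin N)) {σ : ℝ}
    (hσ : 0 ≤ σ) (hσ1 : ∀ i, W i * σ ≤ 1) (hA : ∀ i, W i * σ ≤ r + min 1 (mm (W i)) * ρ)
    (hC : ∀ i, i ∉ J → W i * σ ≤ ρ + min 1 (mm (W i)) * r)
    (hJ : ∀ i, i ∈ J → W i * σ ≤ ρ + ρ + min 1 (mm (W i)) * r) (i : Fin N) (hi : i ∈ J) :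
    v.q2.qs (w.p2.qs (dz s i)) - v.q1.qs (w.p2.qs (dz s i)) ∈ QS.Id v.D (W i * σ - ρ) := by
  have hr' := hr.trans hr1
  have hρ' := hρ.trans hr1
  have h1 := g.noise hs hW h0 hr' h0' hρ' J hσ hσ1 g.dd (g.dd_known hs) (fun i hi => ?_) (fun i hi => ?_) i hi
  · have h3 : W i * σ - ρ ≤ 1 := by linarith [hσ1 i]
    exact (g.s1.qs_mem_Id h3).mp h1
  · rw [g.loop hs h0 hr' hρ' i]
    exact (QS.Id g.D _).add_mem (Id_anti (hA i) (g.part1 hs h0 hr' hρ' j hw h0' hρ hr1 i (hn i)))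
      (Id_anti (hC i hi) (g.part2 hs h0 j hw hr hr1 i (hn i)))
  · rw [g.loop hs h0 hr' hρ' i, add_sub_assoc]
    exact (QS.Id g.D _).add_mem (Id_anti (hA i) (g.part1 hs h0 hr' hρ' j hw h0' hρ hr1 i (hn i)))
      (Id_anti (hJ i hi) (g.part2' hs h0 j hw hr hr1 i (hn i)))

end RctT

/-- the sizes of the differences of derivatives of parallel lines are sharp at every scale for the coordinates of weight
smaller than two -/
def SharpC (s : VB S d k N) {W : Fin N → ℝ} {r1 : ℝ} (j : J2 s W r1) : Prop :=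
  ∀ (n : Fin N) (y g : ℝ), W n < 2 → 0 < y → y < r1 → 0 < g →
    ¬ ∀ w : s.fv.Star, Cm j w → ∀ v : ZedT w y,
      v.q2.qs (w.p2.qs (dz s n)) - v.q1.qs (w.p2.qs (dz s n)) ∈ QS.Id v.D ((W n - 1) * y + g)

open Classical in
/-- THE WEIGHTS SMALLER THAN TWO: `(W i - 1) (M - 1) ≥ 1` -/
theorem low_weight {s : VB S d k N} (hs : s.Hyp) {W : Fin N → ℝ} (hW : s.fv.RuleS W) {r1 : ℝ} (hr1 : 0 < r1)
    (hr1' : r1 ≤ 1) (j : J2 s W r1) (hsh : SharpC s j) {M : ℝ} (hW1 : ∀ i, 1 < W i) (hWM : ∀ i, W i ≤ M)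
    (i : Fin N) (hi : W i < 2) : 1 ≤ (W i - 1) * (M - 1) := by
  obtain ⟨i0, -, hmin⟩ := Finset.exists_min_image Finset.univ W ⟨i, Finset.mem_univ i⟩
  have hmi := hmin i (Finset.mem_univ i)
  have hi0 : W i0 < 2 := by linarith
  have h10 := hW1 i0
  have hM1 : 1 < M := lt_of_lt_of_le h10 (hWM i0)
  suffices h : 1 ≤ (W i0 - 1) * (M - 1) by
    have h2 : (W i0 - 1) * (M - 1) ≤ (W i - 1) * (M - 1) :=
      mul_le_mul_of_nonneg_right (by linarith) (by linarith)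
    linarith
  by_contra hc
  have hc := not_le.mp hc
  obtain ⟨W0, hW0⟩ : ∃ W0, W0 = W i0 := ⟨_, rfl⟩
  obtain ⟨κ, hκ⟩ : ∃ κ, κ = W0 - 1 := ⟨_, rfl⟩
  rw [← hW0] at hc h10 hi0
  rw [← hκ] at hc
  have hκ0 : 0 < κ := by rw [hκ]; linarith
  obtain ⟨g0, hg0⟩ : ∃ g0, g0 = W0 - M * κ := ⟨_, rfl⟩
  have hg0' : 0 < g0 := by
    rw [hg0]
    have : κ * (M - 1) = M * κ - κ := by ring
    rw [this] at hc
    linarith
  obtain ⟨y, hy⟩ : ∃ y, y = r1 / 2 := ⟨_, rfl⟩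
  have hy0 : 0 < y := by rw [hy]; linarith
  have hM0 : 0 < M := by linarith
  obtain ⟨a, ha⟩ : ∃ a, a = min (r1 / 4) (g0 * y / (2 * M)) := ⟨_, rfl⟩
  have ha0 : 0 < a := by
    rw [ha]
    exact lt_min (by linarith) (by positivity)
  have ha1 : a ≤ r1 / 4 := by rw [ha]; exact min_le_left _ _
  have ha2 : 2 * M * a ≤ g0 * y := by
    have h1 : a ≤ g0 * y / (2 * M) := by rw [ha]; exact min_le_right _ _
    rw [le_div_iff₀ (by positivity)] at h1
    linarith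
  have hay : a + y < r1 := by rw [hy]; linarith
  have hay' : a ≤ y := by rw [hy]; linarith
  have hW0' : 0 < W0 := by linarith
  obtain ⟨σ, hσ⟩ : ∃ σ, σ = (2 * a + κ * (a + y)) / W0 := ⟨_, rfl⟩
  have hσ0 : 0 ≤ σ := by rw [hσ]; positivity
  have hσ' : W0 * σ = 2 * a + κ * (a + y) := by
    rw [hσ]
    field_simp
  have hMσ : M * σ ≤ y + a := by
    have h1 : W0 * (M * σ) ≤ W0 * (y + a) := by
      have h2 : W0 * (M * σ) = M * (W0 * σ) := by ring
      rw [h2, hσ']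
      have h3 : g0 * (y + a) = W0 * (y + a) - M * κ * (y + a) := by rw [hg0]; ring
      have h4 : 0 ≤ g0 * a := by positivity
      nlinarith
    exact le_of_mul_le_mul_left h1 hW0'
  have hWσ : ∀ i, W i * σ ≤ y + a := fun i => (mul_le_mul_of_nonneg_right (hWM i) hσ0).trans hMσ
  have hmn : ∀ i, 0 ≤ min 1 (mm (W i)) := fun i => le_min zero_le_one (mm_nonneg (hW1 i).le)
  refine hsh i0 (a + y) a (by rw [← hW0]; exact hi0) (by linarith) hay ha0 ?_
  intro w hw v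
  obtain ⟨g⟩ := exists_rctT hs v (ρ := a) ha0.le (by linarith)
  have h1 := g.noiseA hs hW j hw (by linarith) hay.le ha0.le (by linarith) hr1' (fun i => (hW1 i).le)
    (Finset.univ.filter fun i => W i < 2) hσ0 (fun i => (hWσ i).trans (by linarith)) (fun i => ?_) (fun i hi => ?_)
    (fun i hi => ?_) i0 (by rw [Finset.mem_filter, ← hW0]; exact ⟨Finset.mem_univ _, hi0⟩)
  · rw [← hW0, hσ'] at h1
    rw [← hW0, ← hκ]
    have e1 : 2 * a + κ * (a + y) - a = κ * (a + y) + a := by ring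
    rw [e1] at h1
    exact h1
  · have := mul_nonneg (hmn i) ha0.le
    linarith [hWσ i]
  · rw [Finset.mem_filter, not_and, not_lt] at hi
    have h2 := hi (Finset.mem_univ _)
    rw [min_mm, min_eq_left (by linarith : (1 : ℝ) ≤ W i - 1), one_mul]
    linarith [hWσ i]
  · rw [Finset.mem_filter] at hi
    rw [min_mm, min_eq_right (by linarith [hi.2] : W i - 1 ≤ (1 : ℝ))]
    have h2 := hmin i (Finset.mem_univ i)
    rw [← hW0] at h2
    have h3 : W0 * (W i * σ) ≤ W0 * (a + a + (W i - 1) * (a + y)) := by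
      have h4 : W0 * (W i * σ) = W i * (W0 * σ) := by ring
      rw [h4, hσ', hκ]
      nlinarith [mul_nonneg (sub_nonneg.mpr h2) (sub_nonneg.mpr hay')]
    exact le_of_mul_le_mul_left h3 hW0'

end

end Pool.Agent.Helper96.FLC
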