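import Mathlib

/-! Restrictions of polynomials to lines and planes through a point. -/

set_option autoImplicit false

namespace Pool.Agent.Helper96.FLC

open Finset

noncomputable section

variable {R : Type*} [CommRing R] {σ : Type*}

/-- restriction to the line `q + X u` -/
def ln (P : MvPolynomial σ R) (q u : σ → R) : Polynomial R :=
  MvPolynomial.aeval (fun a => Polynomial.C (q a) + Polynomial.X * Polynomial.C (u a)) P

/-- restriction to the plane `q + X u + Y v` -/
def bv (P : MvPolynomial σ R) (q u v : σ → R) : MvPolynomial (Fin 2) R :=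
  MvPolynomial.aeval (fun a => MvPolynomial.C (q a) + MvPolynomial.X 0 * MvPolynomial.C (u a) +
    MvPolynomial.X 1 * MvPolynomial.C (v a)) P

/-- the exponent `X^m Y^l` -/
def e2 (m l : ℕ) : Fin 2 →₀ ℕ := Finsupp.single 0 m + Finsupp.single 1 l

theorem e2_zero (m l : ℕ) : e2 m l 0 = m := by
  unfold e2
  simp

theorem e2_one (m l : ℕ) : e2 m l 1 = l := by
  unfold e2
  simp

theorem e2_eq (s : Fin 2 →₀ ℕ) : s = e2 (s 0) (s 1) := by
  ext i
  fin_cases i
  · exact (e2_zero _ _).symm
  · exact (e2_one _ _).symm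

theorem e2_degree (m l : ℕ) : (e2 m l).degree = m + l := by
  unfold e2
  rw [Finsupp.degree_eq_sum, Fin.sum_univ_two]
  simp

/-- mixed coefficients -/
def mx (P : MvPolynomial σ R) (q u v : σ → R) (m l : ℕ) : R := (bv P q u v).coeff (e2 m l)

/-- recentring -/
def rc (P : MvPolynomial σ R) (q : σ → R) : MvPolynomial σ R :=
  MvPolynomial.aeval (fun a => MvPolynomial.X a + MvPolynomial.C (q a)) P

theorem bv_rc (P : MvPolynomial σ R) (q u v : σ → R) : bv P q u v = bv (rc P q) 0 u v := by
  unfold bv rc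
  rw [← AlgHom.comp_apply]
  congr 1
  apply MvPolynomial.algHom_ext
  intro a
  rw [AlgHom.comp_apply, MvPolynomial.aeval_X, MvPolynomial.aeval_X, map_add, MvPolynomial.aeval_X,
    MvPolynomial.algHom_C, MvPolynomial.algebraMap_eq, Pi.zero_apply, MvPolynomial.C_0]
  ring

theorem ln_rc (P : MvPolynomial σ R) (q u : σ → R) : ln P q u = ln (rc P q) 0 u := by
  unfold ln rc
  rw [← AlgHom.comp_apply]
  congr 1
  apply MvPolynomial.algHom_ext
  intro a
  rw [AlgHom.comp_apply, MvPolynomial.aeval_X, MvPolynomial.aeval_X, map_add, MvPolynomial.aeval_X,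
    MvPolynomial.algHom_C, Pi.zero_apply, Polynomial.C_0, Polynomial.algebraMap_eq]
  ring

/-- restriction of the plane to a line -/
def toLn (τ : R) : MvPolynomial (Fin 2) R →ₐ[R] Polynomial R :=
  MvPolynomial.aeval ![Polynomial.X, Polynomial.C τ]

theorem toLn_bv (P : MvPolynomial σ R) (q u v : σ → R) (τ : R) :
    toLn τ (bv P q u v) = ln P (fun a => q a + τ * v a) u := by
  unfold toLn bv ln
  rw [← AlgHom.comp_apply]
  congr 1
  apply MvPolynomial.algHom_ext
  intro a
  rw [AlgHom.comp_apply, MvPolynomial.aeval_X, MvPolynomial.aeval_X, map_add, map_add, map_mul, map_mul,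
    MvPolynomial.algHom_C, MvPolynomial.algHom_C, MvPolynomial.algHom_C, MvPolynomial.aeval_X, MvPolynomial.aeval_X,
    Polynomial.algebraMap_eq, Polynomial.C_add, Polynomial.C_mul]
  simp only [Matrix.cons_val_zero, Matrix.cons_val_one]
  ring

theorem coeff_toLn (Q : MvPolynomial (Fin 2) R) (τ : R) (m D : ℕ) (hD : Q.totalDegree ≤ D) :
    (toLn τ Q).coeff m = ∑ l ∈ range (D + 1), Q.coeff (e2 m l) * τ ^ l := by
  classical
  have key : ∀ (c : (Fin 2 →₀ ℕ) → R) (s : Finset (Fin 2 →₀ ℕ)), (∀ x ∈ s, x.degree ≤ D) →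
      (toLn τ (∑ x ∈ s, MvPolynomial.monomial x (c x))).coeff m =
      ∑ l ∈ range (D + 1), (∑ x ∈ s, MvPolynomial.monomial x (c x)).coeff (e2 m l) * τ ^ l := by
    intro c s hs
    rw [map_sum, Polynomial.finsetSum_coeff]
    simp only [MvPolynomial.coeff_sum, Finset.sum_mul]
    rw [Finset.sum_comm]
    apply Finset.sum_congr rfl
    intro x hx
    have h1 : toLn τ (MvPolynomial.monomial x (c x)) =
        Polynomial.C (c x * τ ^ (x 1)) * Polynomial.X ^ (x 0) := by
      unfold toLn
      rw [MvPolynomial.aeval_monomial, Finsupp.prod_fintype _ _ (fun i => pow_zero _), Fin.prod_univ_two,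
        Polynomial.algebraMap_eq, Polynomial.C_mul, Polynomial.C_pow]
      simp only [Matrix.cons_val_zero, Matrix.cons_val_one]
      ring
    rw [h1, Polynomial.coeff_C_mul_X_pow]
    have h2 := hs x hx
    rw [Finsupp.degree_eq_sum, Fin.sum_univ_two] at h2
    by_cases hm : m = x 0
    · rw [if_pos hm]
      rw [Finset.sum_eq_single (x 1)]
      · rw [MvPolynomial.coeff_monomial, if_pos (by rw [hm]; exact e2_eq x)]
      · intro l _ hl
        rw [MvPolynomial.coeff_monomial, if_neg (fun h => hl ?_), zero_mul]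
        rw [h, e2_one]
      · intro h
        exact absurd (Finset.mem_range.mpr (by omega)) h
    · rw [if_neg hm]
      symm
      apply Finset.sum_eq_zero
      intro l _
      rw [MvPolynomial.coeff_monomial, if_neg (fun h => hm ?_), zero_mul]
      rw [h, e2_zero]
  have h := key (fun x => Q.coeff x) Q.support (fun x hx => ?_)
  · rw [MvPolynomial.support_sum_monomial_coeff] at h
    exact h
  · exact (MvPolynomial.le_totalDegree hx).trans hD

theorem totalDegree_bv_le (P : MvPolynomial σ R) (q u v : σ → R) : (bv P q u v).totalDegree ≤ P.totalDegree := by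
  classical
  unfold bv
  rw [MvPolynomial.aeval_def, MvPolynomial.eval₂_eq]
  refine (MvPolynomial.totalDegree_finsetSum _ _).trans ?_
  apply Finset.sup_le
  intro a ha
  refine (MvPolynomial.totalDegree_mul _ _).trans ?_
  rw [MvPolynomial.algebraMap_eq, MvPolynomial.totalDegree_C, zero_add]
  refine (MvPolynomial.totalDegree_finsetProd _ _).trans ?_
  have h1 : ∀ i ∈ a.support, ((MvPolynomial.C (q i) + MvPolynomial.X 0 * MvPolynomial.C (u i) +
      MvPolynomial.X 1 * MvPolynomial.C (v i) : MvPolynomial (Fin 2) R) ^ a i).totalDegree ≤ a i := by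
    intro i _
    refine (MvPolynomial.totalDegree_pow _ _).trans ?_
    refine le_trans (Nat.mul_le_mul_left _ (?_ : _ ≤ 1)) (by rw [mul_one])
    have h2 : ∀ (j : Fin 2) (c : R), (MvPolynomial.X j * MvPolynomial.C c : MvPolynomial (Fin 2) R).totalDegree ≤ 1 := by
      intro j c
      refine (MvPolynomial.totalDegree_mul _ _).trans ?_
      rw [MvPolynomial.totalDegree_C, add_zero]
      rcases subsingleton_or_nontrivial R with h | h
      · have h3 : (MvPolynomial.X j : MvPolynomial (Fin 2) R) = 0 := Subsingleton.elim _ _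
        rw [h3, MvPolynomial.totalDegree_zero]
        exact Nat.zero_le _
      · rw [MvPolynomial.totalDegree_X]
    refine (MvPolynomial.totalDegree_add _ _).trans (max_le ?_ (h2 _ _))
    refine (MvPolynomial.totalDegree_add _ _).trans (max_le ?_ (h2 _ _))
    rw [MvPolynomial.totalDegree_C]
    exact Nat.zero_le _
  exact (Finset.sum_le_sum h1).trans (MvPolynomial.le_totalDegree ha)

/-- shift of the restriction to a line -/
theorem ln_shift (P : MvPolynomial σ R) (q u v : σ → R) (τ : R) (m D : ℕ) (hD : P.totalDegree ≤ D) :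
    (ln P (fun a => q a + τ * v a) u).coeff m = ∑ l ∈ range (D + 1), mx P q u v m l * τ ^ l := by
  rw [← toLn_bv]
  exact coeff_toLn _ τ m D ((totalDegree_bv_le P q u v).trans hD)

theorem mx_zero (P : MvPolynomial σ R) (q u v : σ → R) (m : ℕ) : mx P q u v m 0 = (ln P q u).coeff m := by
  have h := ln_shift P q u v 0 m P.totalDegree le_rfl
  have e1 : (fun a => q a + 0 * v a) = q := by
    funext a
    rw [zero_mul, add_zero]
  rw [e1, Finset.sum_range_succ'] at h
  rw [h, pow_zero, mul_one]
  have e2 : ∑ l ∈ range P.totalDegree, mx P q u v m (l + 1) * (0 : R) ^ (l + 1) = 0 :=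
    Finset.sum_eq_zero fun l _ => by rw [pow_succ, mul_zero, mul_zero]
  rw [e2, zero_add]

/-- the difference of two parallel lines -/
theorem ln_sub (P : MvPolynomial σ R) (q u v : σ → R) (τ : R) (m D : ℕ) (hD : P.totalDegree ≤ D) :
    (ln P (fun a => q a + τ * v a) u).coeff m - (ln P q u).coeff m =
      ∑ l ∈ range D, mx P q u v m (l + 1) * τ ^ (l + 1) := by
  rw [ln_shift P q u v τ m D hD, Finset.sum_range_succ', pow_zero, mul_one, mx_zero, add_sub_cancel_right]

theorem mx_symm (P : MvPolynomial σ R) (q u v : σ → R) (m l : ℕ) : mx P q u v m l = mx P q v u l m := by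
  unfold mx
  have h1 : bv P q v u = MvPolynomial.rename (Equiv.swap (0 : Fin 2) 1) (bv P q u v) := by
    unfold bv
    rw [← AlgHom.comp_apply]
    congr 1
    apply MvPolynomial.algHom_ext
    intro a
    rw [AlgHom.comp_apply, MvPolynomial.aeval_X, MvPolynomial.aeval_X, map_add, map_add, map_mul, map_mul,
      MvPolynomial.rename_X, MvPolynomial.rename_X, MvPolynomial.rename_C, MvPolynomial.rename_C,
      MvPolynomial.rename_C, Equiv.swap_apply_left, Equiv.swap_apply_right]
    ring
  have h2 : e2 l m = Finsupp.mapDomain (Equiv.swap (0 : Fin 2) 1) (e2 m l) := by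
    unfold e2
    rw [Finsupp.mapDomain_add, Finsupp.mapDomain_single, Finsupp.mapDomain_single, Equiv.swap_apply_left,
      Equiv.swap_apply_right, add_comm]
  rw [h1, h2, MvPolynomial.coeff_rename_mapDomain _ (Equiv.injective _)]

/-- coefficients in an ideal -/
theorem aeval_coeff_mem (J : Ideal R) {P : MvPolynomial σ R} (hP : ∀ m, P.coeff m ∈ J) {ι : Type*}
    (f : σ → MvPolynomial ι R) (m : ι →₀ ℕ) : (MvPolynomial.aeval f P).coeff m ∈ J := by
  have h1 : P ∈ J.map (MvPolynomial.C : R →+* MvPolynomial σ R) := MvPolynomial.mem_map_C_iff.mpr hP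
  have h2 : MvPolynomial.aeval f P ∈ J.map (MvPolynomial.C : R →+* MvPolynomial ι R) := by
    have h3 : (MvPolynomial.aeval f : MvPolynomial σ R →ₐ[R] MvPolynomial ι R).toRingHom P ∈
        (J.map (MvPolynomial.C : R →+* MvPolynomial σ R)).map (MvPolynomial.aeval f).toRingHom :=
      Ideal.mem_map_of_mem _ h1
    rw [Ideal.map_map] at h3
    have h4 : (MvPolynomial.aeval f : MvPolynomial σ R →ₐ[R] MvPolynomial ι R).toRingHom.comp MvPolynomial.C =
        MvPolynomial.C := by
      ext r
      simp
    rw [h4] at h3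
    exact h3
  exact MvPolynomial.mem_map_C_iff.mp h2 m

theorem bv_zero_hom {n : ℕ} {P : MvPolynomial σ R} (hP : P.IsHomogeneous n) (u v : σ → R) :
    (bv P 0 u v).IsHomogeneous n := by
  have h2 : ∀ a, (MvPolynomial.C ((0 : σ → R) a) + MvPolynomial.X 0 * MvPolynomial.C (u a) +
      MvPolynomial.X 1 * MvPolynomial.C (v a) : MvPolynomial (Fin 2) R).IsHomogeneous 1 := by
    intro a
    rw [Pi.zero_apply, MvPolynomial.C_0, zero_add]
    apply MvPolynomial.IsHomogeneous.add
    · have h1 := (MvPolynomial.isHomogeneous_X R (0 : Fin 2)).mul (MvPolynomial.isHomogeneous_C (Fin 2) (u a))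
      exact h1
    · have h1 := (MvPolynomial.isHomogeneous_X R (1 : Fin 2)).mul (MvPolynomial.isHomogeneous_C (Fin 2) (v a))
      exact h1
  have h := hP.aeval _ h2
  rw [one_mul] at h
  exact h

theorem bv_sum {ι : Type*} (s : Finset ι) (P : ι → MvPolynomial σ R) (q u v : σ → R) :
    bv (∑ i ∈ s, P i) q u v = ∑ i ∈ s, bv (P i) q u v := map_sum _ _ _

theorem mx_hom (P : MvPolynomial σ R) (u v : σ → R) (m l : ℕ) :
    mx P 0 u v m l = mx (MvPolynomial.homogeneousComponent (m + l) P) 0 u v m l := by
  classical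
  unfold mx
  have h1 : bv P 0 u v = ∑ n ∈ range (max P.totalDegree (m + l) + 1),
      bv (MvPolynomial.homogeneousComponent n P) 0 u v := by
    rw [← bv_sum]
    congr 1
    conv_lhs => rw [← MvPolynomial.sum_homogeneousComponent P]
    apply Finset.sum_subset
    · intro n hn
      rw [Finset.mem_range] at hn ⊢
      omega
    · intro n _ hn
      rw [Finset.mem_range, not_lt] at hn
      exact MvPolynomial.homogeneousComponent_eq_zero _ _ (by omega)
  rw [h1, MvPolynomial.coeff_sum, Finset.sum_eq_single (m + l)]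
  · intro n _ hn
    have h2 := bv_zero_hom (MvPolynomial.homogeneousComponent_isHomogeneous n P) u v
    by_contra h3
    have h4 := h2 h3
    have h5 : (Finsupp.weight 1) (e2 m l) = (e2 m l).degree := by
      rw [Finsupp.degree_eq_weight_one]
      rfl
    rw [h5, e2_degree] at h4
    exact hn h4.symm
  · intro h
    exact absurd (Finset.mem_range.mpr (by omega)) h

/-- mixed coefficients in an ideal -/
theorem mx_mem (J : Ideal R) (P : MvPolynomial σ R) (q u v : σ → R) (m l : ℕ)
    (h : ∀ α : σ →₀ ℕ, α.degree = m + l → (rc P q).coeff α ∈ J) : mx P q u v m l ∈ J := by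
  classical
  have h1 : mx P q u v m l = mx (rc P q) 0 u v m l := by
    unfold mx
    rw [bv_rc]
  rw [h1, mx_hom]
  unfold mx bv
  apply aeval_coeff_mem
  intro α
  rw [MvPolynomial.coeff_homogeneousComponent]
  split_ifs with h2
  · exact h α h2
  · exact J.zero_mem

theorem mx_deg (P : MvPolynomial σ R) (q u v : σ → R) (m l : ℕ) (h : P.totalDegree < m + l) :
    mx P q u v m l = 0 := by
  unfold mx
  by_contra h1
  have h2 : (e2 m l).degree ≤ (bv P q u v).totalDegree :=
    MvPolynomial.le_totalDegree (MvPolynomial.mem_support_iff.mpr h1)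
  have h3 := totalDegree_bv_le P q u v
  rw [e2_degree] at h2
  omega

/-! maps -/

theorem ln_map {R' : Type*} [CommRing R'] (f : R →+* R') (P : MvPolynomial σ R) (q u : σ → R) :
    (ln P q u).map f = ln (MvPolynomial.map f P) (fun a => f (q a)) (fun a => f (u a)) := by
  unfold ln
  rw [MvPolynomial.aeval_def, MvPolynomial.aeval_def, MvPolynomial.eval₂_map]
  have h := MvPolynomial.map_eval₂Hom (algebraMap R (Polynomial R))
    (fun a => Polynomial.C (q a) + Polynomial.X * Polynomial.C (u a)) (Polynomial.mapRingHom f) P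
  rw [MvPolynomial.coe_eval₂Hom, MvPolynomial.coe_eval₂Hom, Polynomial.coe_mapRingHom] at h
  rw [h]
  congr 1
  · ext r
    simp
  · funext a
    rw [Polynomial.map_add, Polynomial.map_mul, Polynomial.map_C, Polynomial.map_C, Polynomial.map_X]

theorem mx_map {R' : Type*} [CommRing R'] (f : R →+* R') (P : MvPolynomial σ R) (q u v : σ → R) (m l : ℕ) :
    f (mx P q u v m l) = mx (MvPolynomial.map f P) (fun a => f (q a)) (fun a => f (u a)) (fun a => f (v a)) m l := by
  unfold mx
  rw [← MvPolynomial.coeff_map]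
  congr 1
  unfold bv
  rw [MvPolynomial.aeval_def, MvPolynomial.aeval_def, MvPolynomial.eval₂_map]
  have h := MvPolynomial.map_eval₂Hom (algebraMap R (MvPolynomial (Fin 2) R))
    (fun a => MvPolynomial.C (q a) + MvPolynomial.X 0 * MvPolynomial.C (u a) +
      MvPolynomial.X 1 * MvPolynomial.C (v a)) (MvPolynomial.map f) P
  rw [MvPolynomial.coe_eval₂Hom, MvPolynomial.coe_eval₂Hom] at h
  rw [h]
  congr 1
  · ext r
    simp
  · funext a
    rw [map_add, map_add, map_mul, map_mul, MvPolynomial.map_C, MvPolynomial.map_C, MvPolynomial.map_C,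
      MvPolynomial.map_X, MvPolynomial.map_X]

/-- mixed coefficients in a subring -/
theorem mx_subring (A : Subring R) {P : MvPolynomial σ R} (hP : ∀ m, P.coeff m ∈ A) {q u v : σ → R}
    (hq : ∀ a, q a ∈ A) (hu : ∀ a, u a ∈ A) (hv : ∀ a, v a ∈ A) (m l : ℕ) : mx P q u v m l ∈ A := by
  have h1 : ∃ P' : MvPolynomial σ A, MvPolynomial.map A.subtype P' = P := by
    have h2 : P ∈ (MvPolynomial.map A.subtype : MvPolynomial σ A →+* MvPolynomial σ R).range := by
      rw [MvPolynomial.as_sum P]
      apply Subring.sum_mem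
      intro s _
      exact ⟨MvPolynomial.monomial s ⟨P.coeff s, hP s⟩, by rw [MvPolynomial.map_monomial]; rfl⟩
    exact h2
  obtain ⟨P', rfl⟩ := h1
  have h3 := mx_map A.subtype P' (fun a => (⟨q a, hq a⟩ : A)) (fun a => ⟨u a, hu a⟩) (fun a => ⟨v a, hv a⟩) m l
  have h4 : mx (MvPolynomial.map A.subtype P') q u v m l = A.subtype (mx P' (fun a => (⟨q a, hq a⟩ : A))
    (fun a => ⟨u a, hu a⟩) (fun a => ⟨v a, hv a⟩) m l) := h3.symm
  rw [h4]
  exact Subtype.property _

/-! Taylor coefficients -/

theorem taylor_coeff_eq (Q : Polynomial R) (h : R) (m D : ℕ) (hD : Q.natDegree ≤ D) :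
    (Polynomial.taylor h Q).coeff m = ∑ i ∈ range (D + 1), (i.choose m : R) * Q.coeff i * h ^ (i - m) := by
  rw [Polynomial.taylor_coeff, Polynomial.hasseDeriv_apply, Polynomial.sum_over_range' _ _ (D + 1)
    (Nat.lt_succ_of_le hD), Polynomial.eval_finsetSum]
  · apply Finset.sum_congr rfl
    intro i _
    rw [Polynomial.eval_monomial]
  · intro n
    rw [mul_zero, Polynomial.monomial_zero_right]

/-- the coefficient before the last one -/
theorem taylor_pred (P : Polynomial R) (x h : R) (K : ℕ) (hK : P.natDegree ≤ K + 1) :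
    (Polynomial.taylor (x + h) P).coeff K - (Polynomial.taylor x P).coeff K = ((K + 1 : ℕ) : R) * h * P.coeff (K + 1) := by
  have h1 : Polynomial.taylor (x + h) P = Polynomial.taylor h (Polynomial.taylor x P) := by
    rw [Polynomial.taylor_taylor, add_comm]
  have h2 : (Polynomial.taylor x P).natDegree ≤ K + 1 := by
    rw [Polynomial.natDegree_taylor]
    exact hK
  have h3 : (Polynomial.taylor x P).coeff (K + 1) = P.coeff (K + 1) := by
    rw [taylor_coeff_eq P x (K + 1) (K + 1) hK, Finset.sum_range_succ, Nat.choose_self, Nat.sub_self, pow_zero,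
      Nat.cast_one, one_mul, mul_one]
    rw [Finset.sum_eq_zero, zero_add]
    intro i hi
    rw [Finset.mem_range] at hi
    rw [Nat.choose_eq_zero_of_lt hi, Nat.cast_zero, zero_mul, zero_mul]
  rw [h1, taylor_coeff_eq _ h K (K + 1) h2, Finset.sum_range_succ, Finset.sum_range_succ, Nat.choose_self,
    Nat.sub_self, pow_zero, Nat.cast_one, h3, Nat.choose_succ_self_right]
  rw [Finset.sum_eq_zero]
  · have h4 : K + 1 - K = 1 := by omega
    rw [h4, pow_one]
    ring
  · intro i hi
    rw [Finset.mem_range] at hi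
    rw [Nat.choose_eq_zero_of_lt hi, Nat.cast_zero, zero_mul, zero_mul]

/-- the coefficient before the coefficient before the last one -/
theorem taylor_pred2 (P : Polynomial R) (x h : R) (K : ℕ) (hK : P.natDegree ≤ K + 2) :
    (Polynomial.taylor (x + h) P).coeff K - (Polynomial.taylor x P).coeff K =
      ((K + 1 : ℕ) : R) * h * (Polynomial.taylor x P).coeff (K + 1) + ((K + 2).choose K : R) * h ^ 2 * P.coeff (K + 2) := by
  have h1 : Polynomial.taylor (x + h) P = Polynomial.taylor h (Polynomial.taylor x P) := by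
    rw [Polynomial.taylor_taylor, add_comm]
  have h2 : (Polynomial.taylor x P).natDegree ≤ K + 2 := by
    rw [Polynomial.natDegree_taylor]
    exact hK
  have h3 : (Polynomial.taylor x P).coeff (K + 2) = P.coeff (K + 2) := by
    rw [taylor_coeff_eq P x (K + 2) (K + 2) hK, Finset.sum_range_succ, Nat.choose_self, Nat.sub_self, pow_zero,
      Nat.cast_one, one_mul, mul_one]
    rw [Finset.sum_eq_zero, zero_add]
    intro i hi
    rw [Finset.mem_range] at hi
    rw [Nat.choose_eq_zero_of_lt hi, Nat.cast_zero, zero_mul, zero_mul]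
  rw [h1, taylor_coeff_eq _ h K (K + 2) h2, Finset.sum_range_succ, Finset.sum_range_succ, Finset.sum_range_succ,
    Nat.choose_self, Nat.sub_self, pow_zero, Nat.cast_one, h3, Nat.choose_succ_self_right]
  rw [Finset.sum_eq_zero]
  · have h4 : K + 1 - K = 1 := by omega
    have h5 : K + 2 - K = 2 := by omega
    rw [h4, h5, pow_one]
    ring
  · intro i hi
    rw [Finset.mem_range] at hi
    rw [Nat.choose_eq_zero_of_lt hi, Nat.cast_zero, zero_mul, zero_mul]

theorem eval_add_sub (P : Polynomial R) (x h : R) (D : ℕ) (hD : P.natDegree ≤ D) :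
    P.eval (x + h) - P.eval x = ∑ m ∈ range D, h ^ (m + 1) * (Polynomial.taylor x P).coeff (m + 1) := by
  have h1 : P.eval (x + h) = (Polynomial.taylor x P).eval h := by
    rw [Polynomial.taylor_eval, add_comm]
  have h2 : (Polynomial.taylor x P).natDegree < D + 1 := by
    rw [Polynomial.natDegree_taylor]
    exact Nat.lt_succ_of_le hD
  rw [h1, Polynomial.eval_eq_sum_range' h2, Finset.sum_range_succ', pow_zero, mul_one, Polynomial.taylor_coeff_zero,
    add_sub_cancel_right]
  apply Finset.sum_congr rfl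
  intro m _
  rw [mul_comm]

/-- THE LOOP, base corner = intersection of the transversal with the far parallel line -/
theorem loop_eq (A0 A1 Z L0 L1 : Polynomial R) (t0 t1 τ b : R) (D : ℕ) (hL : L1 = L0 + Polynomial.C b)
    (h1 : L0.eval t0 = A0.eval t0) (h2 : A0.eval (t0 + τ) = Z.eval (t0 + τ)) (h3 : L1.eval t1 = A1.eval t1)
    (h4 : A1.eval (t1 + τ) = Z.eval (t1 + τ)) (d0 : A0.natDegree ≤ D) (d1 : A1.natDegree ≤ D)
    (dZ : Z.natDegree ≤ D) (dL : L0.natDegree ≤ D) :
    b = ∑ m ∈ range D, (-τ) ^ (m + 1) *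
        ((Polynomial.taylor (t1 + τ) A1).coeff (m + 1) - (Polynomial.taylor (t0 + τ) A0).coeff (m + 1)) +
      ∑ m ∈ range D, (t1 - t0) ^ (m + 1) *
        ((Polynomial.taylor (t0 + τ) Z).coeff (m + 1) - (Polynomial.taylor t0 L0).coeff (m + 1)) := by
  have e1 := eval_add_sub A1 (t1 + τ) (-τ) D d1
  have e2 := eval_add_sub A0 (t0 + τ) (-τ) D d0
  have e3 := eval_add_sub Z (t0 + τ) (t1 - t0) D dZ
  have e4 := eval_add_sub L0 t0 (t1 - t0) D dL
  have a1 : t1 + τ + -τ = t1 := by ring
  have a2 : t0 + τ + -τ = t0 := by ring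
  have a3 : t0 + τ + (t1 - t0) = t1 + τ := by ring
  have a4 : t0 + (t1 - t0) = t1 := by ring
  rw [a1] at e1
  rw [a2] at e2
  rw [a3] at e3
  rw [a4] at e4
  simp only [mul_sub, Finset.sum_sub_distrib]
  rw [← e1, ← e2, ← e3, ← e4]
  rw [hL, Polynomial.eval_add, Polynomial.eval_C] at h3
  linear_combination h3 + h4 - h2 - h1

end

end Pool.Agent.Helper96.FLC
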