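import Mathlib

/-! Polynomials of one variable: coefficient families, interpolation, primitives, values modulo ideals. -/

set_option autoImplicit false

namespace Pool.Agent.Helper96.FLC

open Finset

noncomputable section

variable {R : Type*} [CommRing R]

/-- the polynomial of a family of coefficients -/
def cpl {k : ℕ} (c : Fin k → R) : Polynomial R := ∑ j, Polynomial.C (c j) * Polynomial.X ^ (j : ℕ)

theorem cpl_coeff {k : ℕ} (c : Fin k → R) (j : ℕ) : (cpl c).coeff j = if h : j < k then c ⟨j, h⟩ else 0 := by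
  unfold cpl
  rw [Polynomial.finsetSum_coeff]
  split_ifs with h
  · rw [Finset.sum_eq_single (⟨j, h⟩ : Fin k)]
    · rw [Polynomial.coeff_C_mul_X_pow, if_pos rfl]
    · intro b _ hb
      rw [Polynomial.coeff_C_mul_X_pow, if_neg]
      intro hc
      exact hb (Fin.ext hc.symm)
    · intro hc
      exact absurd (Finset.mem_univ _) hc
  · apply Finset.sum_eq_zero
    intro b _
    rw [Polynomial.coeff_C_mul_X_pow, if_neg]
    intro hc
    exact h (hc ▸ b.2)

theorem cpl_coeff_of_lt {k : ℕ} (c : Fin k → R) (j : Fin k) : (cpl c).coeff (j : ℕ) = c j := by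
  rw [cpl_coeff, dif_pos j.2]

theorem cpl_coeff_of_ge {k : ℕ} (c : Fin k → R) {j : ℕ} (h : k ≤ j) : (cpl c).coeff j = 0 := by
  rw [cpl_coeff, dif_neg (not_lt.mpr h)]

theorem cpl_eval {k : ℕ} (c : Fin k → R) (x : R) : (cpl c).eval x = ∑ j, c j * x ^ (j : ℕ) := by
  unfold cpl
  rw [Polynomial.eval_finsetSum]
  apply Finset.sum_congr rfl
  intro j _
  rw [Polynomial.eval_mul, Polynomial.eval_C, Polynomial.eval_pow, Polynomial.eval_X]

theorem cpl_map {R' : Type*} [CommRing R'] (f : R →+* R') {k : ℕ} (c : Fin k → R) :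
    (cpl c).map f = cpl (fun j => f (c j)) := by
  ext j
  rw [Polynomial.coeff_map, cpl_coeff, cpl_coeff]
  split_ifs
  · rfl
  · exact map_zero f

theorem cpl_natDegree {k : ℕ} (c : Fin k → R) (D : ℕ) (hD : k ≤ D + 1) : (cpl c).natDegree ≤ D := by
  rw [Polynomial.natDegree_le_iff_coeff_eq_zero]
  intro j hj
  exact cpl_coeff_of_ge c (by omega)

/-- a polynomial is the polynomial of its coefficients -/
theorem eq_cpl {k : ℕ} (P : Polynomial R) (h : ∀ j, k ≤ j → P.coeff j = 0) :
    P = cpl (fun j : Fin k => P.coeff (j : ℕ)) := by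
  ext j
  rw [cpl_coeff]
  split_ifs with hj
  · rfl
  · exact h j (by omega)

theorem mulVec_mem (J : Ideal R) {n : Type} [Fintype n] (M : Matrix n n R) (v : n → R) (h : ∀ i, v i ∈ J) (i : n) :
    M.mulVec v i ∈ J := by
  unfold Matrix.mulVec dotProduct
  exact J.sum_mem fun j _ => J.mul_mem_left _ (h j)

theorem vand_mulVec {k : ℕ} (x : Fin k → R) (c : Fin k → R) (i : Fin k) :
    (Matrix.vandermonde x).mulVec c i = (cpl c).eval (x i) := by
  rw [cpl_eval]
  unfold Matrix.mulVec dotProduct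
  apply Finset.sum_congr rfl
  intro j _
  show Matrix.vandermonde x i j * c j = _
  rw [Matrix.vandermonde_apply, mul_comm]

/-- coefficients from values -/
theorem coeff_mem_of_eval (J : Ideal R) {k : ℕ} (x : Fin k → R) (hx : IsUnit (Matrix.vandermonde x).det)
    (P : Polynomial R) (hP : ∀ j, k ≤ j → P.coeff j = 0) (h : ∀ i, P.eval (x i) ∈ J) (j : ℕ) : P.coeff j ∈ J := by
  by_cases hj : j < k
  · obtain ⟨c, hc⟩ : ∃ c : Fin k → R, c = fun j : Fin k => P.coeff (j : ℕ) := ⟨_, rfl⟩
    have hP' : P = cpl c := by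
      rw [hc]
      exact eq_cpl P hP
    have h1 : c = (Matrix.vandermonde x)⁻¹.mulVec ((Matrix.vandermonde x).mulVec c) := by
      rw [Matrix.mulVec_mulVec, Matrix.nonsing_inv_mul _ hx, Matrix.one_mulVec]
    have h2 : P.coeff j = c ⟨j, hj⟩ := by rw [hc]
    rw [h2, h1]
    apply mulVec_mem
    intro i
    rw [vand_mulVec, ← hP']
    exact h i
  · rw [hP j (by omega)]
    exact J.zero_mem

/-- interpolation -/
def itp {k : ℕ} (x b : Fin k → R) : Polynomial R := cpl ((Matrix.vandermonde x)⁻¹.mulVec b)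

theorem itp_eval {k : ℕ} (x b : Fin k → R) (hx : IsUnit (Matrix.vandermonde x).det) (i : Fin k) :
    (itp x b).eval (x i) = b i := by
  unfold itp
  rw [← vand_mulVec, Matrix.mulVec_mulVec, Matrix.mul_nonsing_inv _ hx, Matrix.one_mulVec]

theorem itp_coeff_of_ge {k : ℕ} (x b : Fin k → R) {j : ℕ} (h : k ≤ j) : (itp x b).coeff j = 0 := cpl_coeff_of_ge _ h

/-- primitives -/
def ant {k : ℕ} (iv : ℕ → R) (P : Polynomial R) : Polynomial R :=
  ∑ j ∈ range k, Polynomial.C (P.coeff j * iv j) * Polynomial.X ^ (j + 1)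

theorem ant_coeff_zero {k : ℕ} (iv : ℕ → R) (P : Polynomial R) : (ant (k := k) iv P).coeff 0 = 0 := by
  unfold ant
  rw [Polynomial.finsetSum_coeff]
  apply Finset.sum_eq_zero
  intro b _
  rw [Polynomial.coeff_C_mul_X_pow, if_neg (Nat.succ_ne_zero b).symm]

theorem ant_coeff_succ {k : ℕ} (iv : ℕ → R) (P : Polynomial R) (hP : ∀ j, k ≤ j → P.coeff j = 0) (j : ℕ) :
    (ant (k := k) iv P).coeff (j + 1) = P.coeff j * iv j := by
  unfold ant
  rw [Polynomial.finsetSum_coeff]
  by_cases hj : j < k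
  · rw [Finset.sum_eq_single j]
    · rw [Polynomial.coeff_C_mul_X_pow, if_pos rfl]
    · intro b _ hb
      rw [Polynomial.coeff_C_mul_X_pow, if_neg]
      intro hc
      exact hb (by omega)
    · intro hc
      exact absurd (Finset.mem_range.mpr hj) hc
  · rw [hP j (by omega), zero_mul]
    apply Finset.sum_eq_zero
    intro b hb
    rw [Finset.mem_range] at hb
    rw [Polynomial.coeff_C_mul_X_pow, if_neg]
    intro hc
    omega

theorem ant_derivative {k : ℕ} (iv : ℕ → R) (hiv : ∀ j : ℕ, iv j * (j + 1) = 1) (P : Polynomial R)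
    (hP : ∀ j, k ≤ j → P.coeff j = 0) : Polynomial.derivative (ant (k := k) iv P) = P := by
  ext j
  rw [Polynomial.coeff_derivative, ant_coeff_succ iv P hP, mul_assoc, hiv j, mul_one]

/-- coefficients from the derivative -/
theorem coeff_of_derivative (J : Ideal R) (iv : ℕ → R) (hiv : ∀ j : ℕ, iv j * (j + 1) = 1) (P : Polynomial R)
    (h : ∀ j, (Polynomial.derivative P).coeff j ∈ J) (j : ℕ) : P.coeff (j + 1) ∈ J := by
  have h1 := h j
  rw [Polynomial.coeff_derivative] at h1
  have h2 : P.coeff (j + 1) = iv j * (P.coeff (j + 1) * (j + 1)) := by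
    rw [mul_left_comm, hiv j, mul_one]
  rw [h2]
  exact J.mul_mem_left _ h1

/-- differences of values -/
theorem eval_sub_mem (J : Ideal R) (P : Polynomial R) (hP : ∀ j, P.coeff (j + 1) ∈ J) (x y : R) :
    ∃ c ∈ J, P.eval x - P.eval y = (x - y) * c := by
  have h1 : ∃ Q : Polynomial R, (∀ j, Q.coeff j ∈ J) ∧ P = Polynomial.C (P.coeff 0) + Polynomial.X * Q := by
    refine ⟨P.divX, fun j => ?_, ?_⟩
    · rw [Polynomial.coeff_divX]
      exact hP j
    · have := P.X_mul_divX_add
      rw [add_comm]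
      exact this.symm
  obtain ⟨Q, hQ, hPQ⟩ := h1
  have e1 : ∀ z, Q.eval z ∈ J := by
    intro z
    rw [Polynomial.eval_eq_sum]
    exact J.sum_mem fun j _ => J.mul_mem_right _ (hQ j)
  -- the difference quotient
  have e2 : ∃ c ∈ J, Q.eval x - Q.eval y = (x - y) * c := by
    have h3 : ∀ n : ℕ, ∃ c : R, x ^ n - y ^ n = (x - y) * c := fun n => sub_dvd_pow_sub_pow x y n
    choose c hc using h3
    refine ⟨∑ j ∈ Q.support, Q.coeff j * c j, J.sum_mem fun j _ => J.mul_mem_right _ (hQ j), ?_⟩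
    rw [Polynomial.eval_eq_sum, Polynomial.eval_eq_sum, Polynomial.sum, Polynomial.sum, ← Finset.sum_sub_distrib,
      Finset.mul_sum]
    apply Finset.sum_congr rfl
    intro j _
    rw [← mul_sub, hc j]
    ring
  obtain ⟨c, hc, e3⟩ := e2
  refine ⟨Q.eval x + y * c, J.add_mem (e1 x) (J.mul_mem_left _ hc), ?_⟩
  rw [hPQ]
  simp only [Polynomial.eval_add, Polynomial.eval_C, Polynomial.eval_mul, Polynomial.eval_X]
  linear_combination y * e3

/-- second order -/
theorem eval_sub_sq (J : Ideal R) (P : Polynomial R) (hP : ∀ j, P.coeff (j + 1) ∈ J) (x y : R) :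
    ∃ c ∈ J, P.eval x - P.eval y = (x - y) * (Polynomial.derivative P).eval y + (x - y) * (x - y) * c := by
  have h3 : ∀ n : ℕ, ∃ c : R, x ^ n - y ^ n = (x - y) * (n * y ^ (n - 1)) + (x - y) * (x - y) * c := by
    intro n
    have h4 := (Polynomial.X ^ n : Polynomial R).evalSubFactor y x
    obtain ⟨q, hq⟩ := Polynomial.binomExpansion (Polynomial.X ^ n : Polynomial R) y (x - y)
    refine ⟨q, ?_⟩
    simp only [Polynomial.eval_pow, Polynomial.eval_X, Polynomial.derivative_X_pow, Polynomial.eval_mul,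
      Polynomial.eval_C] at hq
    rw [add_sub_cancel] at hq
    rw [hq]
    ring
  choose c hc using h3
  refine ⟨∑ j ∈ P.support, if j = 0 then 0 else P.coeff j * c j, J.sum_mem fun j _ => ?_, ?_⟩
  · split_ifs with h
    · exact J.zero_mem
    · obtain ⟨i, rfl⟩ := Nat.exists_eq_succ_of_ne_zero h
      exact J.mul_mem_right _ (hP i)
  · rw [Polynomial.derivative_eval, Polynomial.eval_eq_sum, Polynomial.eval_eq_sum, Polynomial.sum, Polynomial.sum,
      Polynomial.sum, ← Finset.sum_sub_distrib, Finset.mul_sum, Finset.mul_sum, ← Finset.sum_add_distrib]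
    apply Finset.sum_congr rfl
    intro j _
    rw [← mul_sub]
    split_ifs with h
    · subst h
      rw [pow_zero, pow_zero, Nat.cast_zero]
      ring
    · rw [hc j]
      ring

end

end Pool.Agent.Helper96.FLC
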