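import Pool.Agent.Helper96.FLC.Lp

/-! Exact entropy calculus: the other pair of sides of a rectangle; the loop identity; the line pair lemma on both
pairs of sides. -/

set_option autoImplicit false

namespace Pool.Agent.Helper96.FLC

open Pool.Agent.Helper31.EC QS Pool.Agent.Helper38.NS Pool.Agent.Helper96.FLT Pool.Agent.Helper50.VC

noncomputable section

variable {S : Sp} {d k N : ℕ}

/-- the star with the two lines exchanged -/
abbrev swapS {s : VB S d k N} (w : s.fv.Star) : s.fv.Star where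
  D := w.D
  p1 := w.p2
  p2 := w.p1
  cy i := (w.cy i).symm
  cz i := (w.cz i).symm
  ct := w.ct.symm
  ci x y := by
    have h1 := ind_symm (w.ci y x)
    rw [w.p2.map_sup, w.p2.map_sup, w.eT, w.eY, w.eZ, ← w.p1.map_sup, ← w.p1.map_sup]
    exact h1

theorem Cm.swap {s : VB S d k N} {W : Fin N → ℝ} {r1 : ℝ} {j : J2 s W r1} {w : s.fv.Star} (h : Cm j w) :
    Cm j (swapS w) := ⟨fun n a => (h.e1 n a).symm, fun n a b => (h.e2 n a b).symm⟩

namespace RctT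

variable {s : VB S d k N} {w : s.fv.Star} {r ρ : ℝ} {v : ZedT w r} (g : RctT v ρ)

/-- the other pair of sides -/
abbrev sw (hs : s.Hyp) (h0 : 0 ≤ r) (hr : r ≤ 1) (hρ : ρ ≤ 1) : ZedT (swapS w) ρ where
  D := g.D
  q1 := g.s1.comp v.q2
  q2 := g.s2.comp v.q2
  ca i := by
    rw [Pj.comp_qs, Pj.comp_qs]
    exact g.ca i
  cu i := by
    rw [Pj.comp_qs, Pj.comp_qs]
    exact g.cx i
  cc n j := by
    rw [Pj.comp_qs, Pj.comp_qs]
    exact g.cc n j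
  cx i := by
    rw [Pj.comp_qs, Pj.comp_qs]
    show g.s1.qs (v.q2.qs (w.p1.qs (s.x i))) = g.s2.qs (v.q2.qs (w.p1.qs (s.x i)))
    rw [← v.cu i]
    exact g.cu i
  ct := by
    rw [Pj.comp_qs, Pj.comp_qs]
    show g.s2.qs (v.q2.qs (w.p2.qs s.t)) - g.s1.qs (v.q2.qs (w.p2.qs s.t)) ∈ _
    have e1 : w.p2.qs s.t = w.p1.qs s.t := w.ct.symm
    rw [e1, ← v.t0_add, map_add, map_add, ← g.ct]
    have h1 := g.ch
    have e2 : g.s2.qs v.t0 + g.s1.qs v.tau - (g.s1.qs v.t0 + g.s1.qs v.tau) = g.s2.qs v.t0 - g.s1.qs v.t0 := by ring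
    rw [e2]
    exact h1
  ci x y := by
    simp only [Pj.comp_map]
    show I (g.s1.map (v.q2.map x)) (g.s2.map (v.q2.map y))
      (g.s1.map (v.q2.map (w.p2.map (s.fv.iL ⊔ s.fv.iB) ⊔ w.p1.map s.fv.iX ⊔ w.p2.map (dg s.t ρ)))) = 0
    have e1 : v.q2.map (w.p2.map (s.fv.iL ⊔ s.fv.iB) ⊔ w.p1.map s.fv.iX ⊔ w.p2.map (dg s.t ρ)) =
        v.K' ⊔ v.U ⊔ v.q2.map (w.p1.map (dg s.t ρ)) := by
      have h1 : w.p2.map (dg s.t ρ) = w.p1.map (dg s.t ρ) := w.eTr ρ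
      rw [h1, v.q2.map_sup, v.q2.map_sup, v.eU]
      rfl
    obtain ⟨Q, hQ⟩ : ∃ Q, Q = v.q2.map (w.p1.map (dg s.t ρ)) := ⟨_, rfl⟩
    rw [e1, ← hQ]
    -- digits of the height
    have e2 : Q ≤ v.q1.map (w.p1.map (dg s.t ρ)) ⊔ dg v.tau 1 := by
      rw [hQ, ← w.p1.qs_dg, ← v.q1.qs_dg, ← v.q2.qs_dg, ← v.t0_add]
      have h1 := dg_add_le v.t0 v.tau hρ
      have h2 := dg_mono v.tau hρ
      have h3 : dg (v.q1.qs (w.p1.qs s.t)) ρ = dg v.t0 ρ := rfl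
      rw [h3]
      order
    have e3 : v.q1.map (w.p1.map (dg s.t ρ)) ≤ Q ⊔ dg v.tau 1 := by
      rw [hQ, ← w.p1.qs_dg, ← v.q1.qs_dg, ← v.q2.qs_dg, ← v.t0_add]
      have h0 : v.t0 = v.t0 + v.tau - v.tau := by ring
      have h1 := dg_sub_le (v.t0 + v.tau) v.tau hρ
      rw [← h0] at h1
      have h2 := dg_mono v.tau hρ
      have h3 : dg (v.q1.qs (w.p1.qs s.t)) ρ = dg v.t0 ρ := rfl
      rw [h3]
      order
    have h1 := g.ci (v.q2.map x) (v.q2.map y)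
    have e4 : v.K' ⊔ v.U ⊔ dg v.tau 1 ⊔ v.q1.map (w.p1.map (dg s.t ρ)) = dg v.tau 1 ⊔ (v.K' ⊔ v.U ⊔ Q) := by
      order
    rw [e4, g.s1.map_sup] at h1
    have h2 := g.s1.I_map (dg v.tau 1) (v.q2.map (x ⊔ (w.p2.map (s.fv.iL ⊔ s.fv.iB) ⊔ w.p1.map s.fv.iX ⊔
      w.p1.map (dg s.t ρ)))) ⊥
    have h3 : I (dg v.tau 1) (v.q2.map (x ⊔ (w.p2.map (s.fv.iL ⊔ s.fv.iB) ⊔ w.p1.map s.fv.iX ⊔
      w.p1.map (dg s.t ρ)))) ⊥ = 0 :=
      ind_of (v.e5' hs h0 hr (x ⊔ (w.p2.map (s.fv.iL ⊔ s.fv.iB) ⊔ w.p1.map s.fv.iX ⊔ w.p1.map (dg s.t ρ))))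
        le_rfl bot_le le_sup_left (by order)
    rw [h3, g.s1.map_bot] at h2
    have h4 : v.K' ⊔ v.U ⊔ Q ≤ v.q2.map (x ⊔ (w.p2.map (s.fv.iL ⊔ s.fv.iB) ⊔ w.p1.map s.fv.iX ⊔
        w.p1.map (dg s.t ρ))) := by
      rw [hQ]
      have h5 := v.eU
      have h6 : v.K' = v.q2.map (w.p2.map (s.fv.iL ⊔ s.fv.iB)) := rfl
      rw [h6, ← h5, ← v.q2.map_sup, ← v.q2.map_sup]
      exact v.q2.map_mono le_sup_right
    have h4' : v.q2.map x ≤ v.q2.map (x ⊔ (w.p2.map (s.fv.iL ⊔ s.fv.iB) ⊔ w.p1.map s.fv.iX ⊔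
        w.p1.map (dg s.t ρ))) := v.q2.map_mono le_sup_left
    have h5 : I (g.s1.map (v.q2.map x)) (g.s1.map (dg v.tau 1)) (g.s1.map (v.K' ⊔ v.U ⊔ Q)) = 0 := by
      have k1 := g.s1.map_mono h4
      have k2 := g.s1.map_mono h4'
      exact ind_symm (ind_of h2 bot_le (by order) le_sup_left (by order))
    exact ind_of (ind_add h5 h1 rfl) le_rfl (by order) (by order) (by order)

section sides

variable (hs : s.Hyp) (h0 : 0 ≤ r) (hr : r ≤ 1) (hρ : ρ ≤ 1)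

include hs h0 hr hρ in
theorem sw_tau : (g.sw hs h0 hr hρ).tau = g.al := by
  unfold ZedT.tau al t1 t0
  show (g.s2.comp v.q2).qs (w.p2.qs s.t) - (g.s1.comp v.q2).qs (w.p2.qs s.t) = _
  rw [Pj.comp_qs, Pj.comp_qs]
  have e1 : w.p2.qs s.t = w.p1.qs s.t := w.ct.symm
  rw [e1, ← v.t0_add, map_add, map_add, ← g.ct]
  show g.s2.qs v.t0 + g.s1.qs v.tau - (g.s1.qs v.t0 + g.s1.qs v.tau) = g.s2.qs v.t0 - g.s1.qs v.t0
  ring

theorem sw_t0 : (g.sw hs h0 hr hρ).t0 = g.t0 + g.tau := by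
  unfold ZedT.t0 t0 tau
  show (g.s1.comp v.q2).qs (w.p2.qs s.t) = _
  rw [Pj.comp_qs]
  have e1 : w.p2.qs s.t = w.p1.qs s.t := w.ct.symm
  rw [e1, ← v.t0_add, map_add]
  rfl

/-- values of the two curves of a star at the common point -/
theorem cz_poly {s : VB S d k N} (w : s.fv.Star) {D : Sp} (q : Pj D w.D) (n : Fin N) :
    (cpl fun j => q.qs (w.p1.qs (s.c n j))).eval (q.qs (w.p1.qs s.t)) =
    (cpl fun j => q.qs (w.p2.qs (s.c n j))).eval (q.qs (w.p1.qs s.t)) := by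
  have h1 := congrArg q.qs (w.cz n)
  have ct : w.p1.qs s.t = w.p2.qs s.t := w.ct
  rw [s.z_eq, pe_map, pe_map, pe_map, pe_map, pe_eval, pe_eval, ← ct] at h1
  exact h1

theorem cpl_sub_of_succ {T : Sp} {c c' : Fin (k + 1) → QS T} (h : ∀ j : Fin k, c j.succ = c' j.succ) (x : QS T) :
    (cpl c).eval x - (cpl c').eval x = c 0 - c' 0 := by
  rw [cpl_eval, cpl_eval, Fin.sum_univ_succ, Fin.sum_univ_succ]
  have h1 : ∑ j : Fin k, c j.succ * x ^ ((j.succ : Fin (k + 1)) : ℕ) = ∑ j : Fin k, c' j.succ * x ^ ((j.succ : Fin (k + 1)) : ℕ) :=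
    Finset.sum_congr rfl fun j _ => by rw [h j]
  rw [h1, Fin.val_zero, pow_zero]
  ring

/-- THE LOOP: the difference of the two upper edges -/
theorem loop (n : Fin N) : g.b1 n - g.b0 n =
    (((g.sw hs h0 hr hρ).Dl n).eval g.t0 - ((g.sw hs h0 hr hρ).Dl n).eval (g.t0 + g.tau)) +
    (((v.Dl n).map g.s1.qs).eval g.t1 - ((v.Dl n).map g.s1.qs).eval g.t0) := by
  have hal : g.t0 + g.al = g.t1 := by
    unfold al
    ring
  -- the four points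
  have k1 := cz_poly w (g.s1.comp v.q1) n
  have k2 := cz_poly w (g.s1.comp v.q2) n
  have k3 := cz_poly w (g.s2.comp v.q1) n
  have k4 := cz_poly w (g.s2.comp v.q2) n
  simp only [Pj.comp_qs] at k1 k2 k3 k4
  rw [← v.t0_add, map_add] at k2 k4
  have e0 : g.s1.qs (v.q1.qs (w.p1.qs s.t)) = g.t0 := rfl
  have e1 : g.s2.qs (v.q1.qs (w.p1.qs s.t)) = g.t1 := rfl
  have e2 : g.s1.qs v.t0 = g.t0 := rfl
  have e3 : g.s2.qs v.t0 = g.t1 := rfl
  have e4 : g.s1.qs v.tau = g.tau := rfl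
  have e5 : g.s2.qs v.tau = g.tau := g.ct.symm
  rw [e0] at k1
  rw [e1] at k3
  rw [e2, e4] at k2
  rw [e3, e5] at k4
  have c1 : (fun j => g.s1.qs (v.q1.qs (w.p1.qs (s.c n j)))) = fun j => g.s1.qs (v.q2.qs (w.p1.qs (s.c n j))) :=
    funext fun j => by rw [v.cc]
  have c3 : (fun j => g.s2.qs (v.q1.qs (w.p1.qs (s.c n j)))) = fun j => g.s2.qs (v.q2.qs (w.p1.qs (s.c n j))) :=
    funext fun j => by rw [v.cc]
  have c4 : (fun j => g.s2.qs (v.q2.qs (w.p2.qs (s.c n j)))) = fun j => g.s1.qs (v.q2.qs (w.p2.qs (s.c n j))) :=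
    funext fun j => (g.cc n j).symm
  rw [c1] at k1
  rw [c3] at k3
  rw [c4] at k4
  have k5 := cpl_sub_of_succ (c := fun j => g.s2.qs (v.q1.qs (w.p2.qs (s.c n j))))
    (c' := fun j => g.s1.qs (v.q1.qs (w.p2.qs (s.c n j)))) (fun j => (g.cG n j).symm) g.t1
  have k6 : (fun j => g.s2.qs (v.q1.qs (w.p2.qs (s.c n j)))) 0 - (fun j => g.s1.qs (v.q1.qs (w.p2.qs (s.c n j)))) 0 =
      g.b1 n - g.b0 n := rfl
  rw [k6] at k5
  -- the two differences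
  have m1 : (v.Dl n).map g.s1.qs = (cpl fun j => g.s1.qs (v.q2.qs (w.p2.qs (s.c n j)))).comp
      (Polynomial.X + Polynomial.C g.tau) - cpl fun j => g.s1.qs (v.q1.qs (w.p2.qs (s.c n j))) := by
    unfold ZedT.Dl ZedT.PK ZedT.PK'
    rw [Polynomial.map_sub, Polynomial.map_comp, Polynomial.map_add, Polynomial.map_X, Polynomial.map_C, cpl_map,
      cpl_map, e4]
  have m2 : (g.sw hs h0 hr hρ).Dl n = (cpl fun j => g.s2.qs (v.q2.qs (w.p1.qs (s.c n j)))).comp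
      (Polynomial.X + Polynomial.C g.al) - cpl fun j => g.s1.qs (v.q2.qs (w.p1.qs (s.c n j))) := by
    unfold ZedT.Dl ZedT.PK ZedT.PK'
    rw [g.sw_tau hs h0 hr hρ]
    simp only [Pj.comp_qs]
  rw [m1, m2]
  simp only [Polynomial.eval_sub, Polynomial.eval_comp, Polynomial.eval_add, Polynomial.eval_X, Polynomial.eval_C]
  have n1 : g.t0 + g.tau + g.al = g.t1 + g.tau := by
    rw [← hal]
    ring
  rw [n1, hal]
  linear_combination -k5 + k1 - k2 - k3 + k4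

end sides

end RctT

end

end Pool.Agent.Helper96.FLC
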