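import Pool.Agent.Helper96.FLT.Fr
import Pool.Agent.Helper50.VC.Vb

/-! Exact entropy calculus: curved lines over a flat base, vector valued top coordinates: Z-shapes of any thickness
and their independences. Curved version of FLT/Fv, thick version of Helper50/VC/Vb. -/

set_option autoImplicit false

namespace Pool.Agent.Helper96.FLC

open Pool.Agent.Helper31.EC QS Pool.Agent.Helper38.NS Pool.Agent.Helper96.FLT Pool.Agent.Helper50.VC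

noncomputable section

variable {S : Sp} {d k N : ℕ}

/-- Z-shape of thickness `r`: two stars with the same first line, the same direction of the second line, and
heights which agree to level `r` -/
structure ZedT {s : VB S d k N} (w : s.fv.Star) (r : ℝ) where
  D : Sp
  q1 : Pj D w.D
  q2 : Pj D w.D
  ca : ∀ i, q1.qs (w.p1.qs (s.a i)) = q2.qs (w.p1.qs (s.a i))
  cu : ∀ i, q1.qs (w.p1.qs (s.x i)) = q2.qs (w.p1.qs (s.x i))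
  cc : ∀ n j, q1.qs (w.p1.qs (s.c n j)) = q2.qs (w.p1.qs (s.c n j))
  cx : ∀ i, q1.qs (w.p2.qs (s.x i)) = q2.qs (w.p2.qs (s.x i))
  ct : q2.qs (w.p1.qs s.t) - q1.qs (w.p1.qs s.t) ∈ QS.Id D r
  ci : ∀ x y, I (q1.map x) (q2.map y)
    (q1.map (w.p1.map (s.fv.iL ⊔ s.fv.iB) ⊔ w.p2.map s.fv.iX ⊔ w.p1.map (dg s.t r))) = 0

/-- Z-shapes; any finite family of functions known to the common data may be made common -/
theorem exists_zedT' {s : VB S d k N} (hs : s.Hyp) (w : s.fv.Star) {r : ℝ} (h0 : 0 ≤ r) (hr : r ≤ 1)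
    {κ : Type} [Fintype κ] (f : κ → QS w.D)
    (hf : vd f 1 ≤ w.p1.map (s.fv.iL ⊔ s.fv.iB) ⊔ w.p2.map s.fv.iX ⊔ w.p1.map (dg s.t r)) :
    ∃ v : ZedT w r, ∀ i, v.q1.qs (f i) = v.q2.qs (f i) := by
  obtain ⟨g, hg1, hg2⟩ := exists_rd (w.p1.qs s.t) h0 hr
  obtain ⟨D, q1, q2, c, i, -⟩ := exists_copyS
    (Sum.elim (fun i => w.p1.qs (s.a i)) (Sum.elim (fun i => w.p1.qs (s.x i))
      (Sum.elim (fun j => w.p1.qs (s.cf j))
        (Sum.elim (fun i => w.p2.qs (s.x i)) (Sum.elim (fun _ : Unit => g) f)))))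
  refine ⟨⟨D, q1, q2, fun j => c (Sum.inl j), fun j => c (Sum.inr (Sum.inl j)),
    fun n j => c (Sum.inr (Sum.inr (Sum.inl (n, j)))),
    fun j => c (Sum.inr (Sum.inr (Sum.inr (Sum.inl j)))), ?_, ?_⟩,
    fun j => c (Sum.inr (Sum.inr (Sum.inr (Sum.inr (Sum.inr j)))))⟩
  · have e1 := (q1.qs_mem_Id hr).mpr hg1
    have e2 := (q2.qs_mem_Id hr).mpr hg1
    have e3 : q1.qs g = q2.qs g :=
      c (Sum.inr (Sum.inr (Sum.inr (Sum.inr (Sum.inl ())))))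
    have e4 := (QS.Id D r).sub_mem e2 e1
    simp only [map_sub] at e4
    rw [e3] at e4
    have e5 : q2.qs (w.p1.qs s.t) - q2.qs g - (q1.qs (w.p1.qs s.t) - q2.qs g) =
        q2.qs (w.p1.qs s.t) - q1.qs (w.p1.qs s.t) := by ring
    rw [e5] at e4
    exact e4
  · obtain ⟨G, hG⟩ : ∃ G, G = vd f 1 := ⟨_, rfl⟩
    rw [← hG] at hf
    rw [vd_sum, vd_sum, vd_sum, vd_sum, vd_sum, vd_unit, ← hG, w.p1.qs_vd, w.p1.qs_vd,
      w.p1.qs_vd, w.p2.qs_vd, hg2, w.p1.qs_dg] at i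
    have h1 : w.p1.map (vd s.cf 1) ≤ w.p1.map (s.fv.iL ⊔ s.fv.iB) := w.p1.map_mono hs.vc
    have h1' : w.p1.map s.fv.iB ≤ w.p1.map (vd s.cf 1) := w.p1.map_mono s.iB_le
    have h3 : w.p1.map s.fv.iL = w.p1.map (vd s.a 1) ⊔ w.p1.map (vd s.x 1) := by
      unfold FV.iL
      rw [w.p1.map_sup]
      rfl
    have h4 : w.p1.map (s.fv.iL ⊔ s.fv.iB) = w.p1.map s.fv.iL ⊔ w.p1.map s.fv.iB := w.p1.map_sup _ _
    have h5 : s.fv.iX = vd s.x 1 := rfl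
    have h2 : w.p1.map (vd s.a 1) ⊔ (w.p1.map (vd s.x 1) ⊔ (w.p1.map (vd s.cf 1) ⊔
        (w.p2.map (vd s.x 1) ⊔ (w.p1.map (dg s.t r) ⊔ G)))) =
        w.p1.map (s.fv.iL ⊔ s.fv.iB) ⊔ w.p2.map s.fv.iX ⊔ w.p1.map (dg s.t r) := by
      rw [h5] at hf ⊢
      order
    rw [h2] at i
    exact i

theorem exists_zedT {s : VB S d k N} (hs : s.Hyp) (w : s.fv.Star) {r : ℝ} (h0 : 0 ≤ r) (hr : r ≤ 1) :
    Nonempty (ZedT w r) := by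
  obtain ⟨v, -⟩ := exists_zedT' hs w h0 hr (fun i : Empty => i.elim) (FV.vd_empty _ _ _)
  exact ⟨v⟩

namespace ZedT

variable {s : VB S d k N} {w : s.fv.Star} {r : ℝ} (v : ZedT w r)

/-- informations of the Z-shape: first height, second height -/
def T0 : v.D.L := v.q1.map (w.p1.map s.fv.iT)
def T0' : v.D.L := v.q2.map (w.p1.map s.fv.iT)
/-- the common digits of the heights -/
def Tr : v.D.L := v.q1.map (w.p1.map (dg s.t r))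
/-- direction of the common line -/
def U : v.D.L := v.q1.map (w.p1.map s.fv.iX)
/-- the common line -/
def R : v.D.L := v.q1.map (w.p1.map (s.fv.iL ⊔ s.fv.iB))
/-- the two parallel lines -/
def K : v.D.L := v.q1.map (w.p2.map (s.fv.iL ⊔ s.fv.iB))
def K' : v.D.L := v.q2.map (w.p2.map (s.fv.iL ⊔ s.fv.iB))
def X : v.D.L := v.q1.map (w.p2.map s.fv.iX)
/-- difference of the heights -/
def tau : QS v.D := v.q2.qs (w.p1.qs s.t) - v.q1.qs (w.p1.qs s.t)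

theorem tau_mem : v.tau ∈ QS.Id v.D r := v.ct

theorem eU : v.q2.map (w.p1.map s.fv.iX) = v.U := by
  unfold U FV.iX
  rw [← w.p1.qs_vd, ← v.q1.qs_vd, ← v.q2.qs_vd]
  exact (vd_congr v.cu 1).symm

theorem eX : v.q2.map (w.p2.map s.fv.iX) = v.X := by
  unfold X FV.iX
  rw [← w.p2.qs_vd, ← v.q1.qs_vd, ← v.q2.qs_vd]
  exact (vd_congr v.cx 1).symm

theorem eR : v.q2.map (w.p1.map (s.fv.iL ⊔ s.fv.iB)) = v.R := by
  have h1 : v.q2.map (w.p1.map (vd s.fv.a 1)) = v.q1.map (w.p1.map (vd s.fv.a 1)) := by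
    rw [← w.p1.qs_vd, ← v.q1.qs_vd, ← v.q2.qs_vd]
    exact (vd_congr v.ca 1).symm
  have h2 : v.q2.map (w.p1.map (vd s.fv.x 1)) = v.q1.map (w.p1.map (vd s.fv.x 1)) := by
    rw [← w.p1.qs_vd, ← v.q1.qs_vd, ← v.q2.qs_vd]
    exact (vd_congr v.cu 1).symm
  have h3 : v.q2.map (w.p1.map (vd s.fv.b 1)) = v.q1.map (w.p1.map (vd s.fv.b 1)) := by
    rw [← w.p1.qs_vd, ← v.q1.qs_vd, ← v.q2.qs_vd]
    exact (vd_congr (fun n => v.cc n 0) 1).symm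
  unfold R FV.iL FV.iB
  rw [w.p1.map_sup, w.p1.map_sup, v.q2.map_sup, v.q2.map_sup, h1, h2, h3, ← v.q1.map_sup,
    ← v.q1.map_sup]

theorem eTr (hr : r ≤ 1) : v.q2.map (w.p1.map (dg s.t r)) = v.Tr := by
  unfold Tr
  rw [← w.p1.qs_dg, ← v.q1.qs_dg, ← v.q2.qs_dg]
  exact dg_eq_of_sub_mem v.ct le_rfl hr

theorem Tr_le (hr : r ≤ 1) : v.Tr ≤ v.T0 := v.q1.map_mono (w.p1.map_mono (dg_mono s.t hr))

theorem Tr_le' (hr : r ≤ 1) : v.Tr ≤ v.T0' := by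
  rw [← v.eTr hr]
  exact v.q2.map_mono (w.p1.map_mono (dg_mono s.t hr))

theorem a1 (hs : s.Hyp) : I v.T0 (v.R ⊔ v.X) ⊥ = 0 := by
  have h1 := v.q1.I_map (w.p1.map s.fv.iT) (w.p1.map (s.fv.iL ⊔ s.fv.iB) ⊔ w.p2.map s.fv.iX) ⊥
  rw [VB.d2 w hs, v.q1.map_bot, v.q1.map_sup] at h1
  exact h1

theorem a1' (hs : s.Hyp) : I v.T0' (v.R ⊔ v.X) ⊥ = 0 := by
  have h1 := v.q2.I_map (w.p1.map s.fv.iT) (w.p1.map (s.fv.iL ⊔ s.fv.iB) ⊔ w.p2.map s.fv.iX) ⊥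
  rw [VB.d2 w hs, v.q2.map_bot, v.q2.map_sup, v.eR, v.eX] at h1
  exact h1

/-- the first height is independent of the second star over the common digits -/
theorem e1 (hs : s.Hyp) (hr : r ≤ 1) (y : w.D.L) : I v.T0 (v.R ⊔ v.X ⊔ v.q2.map y) v.Tr = 0 := by
  have h0 := v.a1 hs
  have h1 : I v.T0 (v.R ⊔ v.X) v.Tr = 0 := by
    apply le_antisymm _ (I_nonneg _ _ _)
    have h2 := I_cond_le (A := v.T0) (A' := v.Tr) (B := v.R ⊔ v.X) (C := ⊥) (v.Tr_le hr)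
    rw [sup_bot_eq, h0] at h2
    exact h2
  have h2 := v.ci (w.p1.map s.fv.iT) y
  rw [v.q1.map_sup, v.q1.map_sup] at h2
  exact ind_add h1 h2 rfl

theorem e1' (hs : s.Hyp) (hr : r ≤ 1) (y : w.D.L) : I v.T0' (v.R ⊔ v.X ⊔ v.q1.map y) v.Tr = 0 := by
  have h0 := v.a1' hs
  have h1 : I v.T0' (v.R ⊔ v.X) v.Tr = 0 := by
    apply le_antisymm _ (I_nonneg _ _ _)
    have h2 := I_cond_le (A := v.T0') (A' := v.Tr) (B := v.R ⊔ v.X) (C := ⊥) (v.Tr_le' hr)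
    rw [sup_bot_eq, h0] at h2
    exact h2
  have h2 := ind_symm (v.ci y (w.p1.map s.fv.iT))
  rw [v.q1.map_sup, v.q1.map_sup] at h2
  exact ind_add h1 h2 rfl

/-- heights are independent of the second line and the direction of the first one -/
theorem e3 (hs : s.Hyp) : I v.T0' (v.K' ⊔ v.U) ⊥ = 0 := by
  have h1 := v.q2.I_map (w.p1.map s.fv.iT) (w.p2.map (s.fv.iL ⊔ s.fv.iB) ⊔ w.p1.map s.fv.iX) ⊥
  rw [VB.d2' w hs, v.q2.map_bot, v.q2.map_sup, v.eU] at h1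
  exact h1

theorem e3' (hs : s.Hyp) : I v.T0 (v.K ⊔ v.U) ⊥ = 0 := by
  have h1 := v.q1.I_map (w.p1.map s.fv.iT) (w.p2.map (s.fv.iL ⊔ s.fv.iB) ⊔ w.p1.map s.fv.iX) ⊥
  rw [VB.d2' w hs, v.q1.map_bot, v.q1.map_sup] at h1
  exact h1

theorem T0_eq : v.T0 = dg (v.q1.qs (w.p1.qs s.t)) 1 := by
  unfold T0 FV.iT
  rw [← w.p1.qs_dg, ← v.q1.qs_dg]
  rfl

theorem T0'_eq : v.T0' = dg (v.q2.qs (w.p1.qs s.t)) 1 := by
  unfold T0' FV.iT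
  rw [← w.p1.qs_dg, ← v.q2.qs_dg]
  rfl

theorem Tr_eq : v.Tr = dg (v.q1.qs (w.p1.qs s.t)) r := by
  unfold Tr
  rw [← w.p1.qs_dg, ← v.q1.qs_dg]

theorem Tr_eq' (hr : r ≤ 1) : v.Tr = dg (v.q2.qs (w.p1.qs s.t)) r := by
  rw [← v.eTr hr, ← w.p1.qs_dg, ← v.q2.qs_dg]

theorem HT0 (hs : s.Hyp) : H v.T0 = 1 := by
  unfold T0
  rw [v.q1.H_map, w.p1.H_map, hs.HT]

theorem HT0' (hs : s.Hyp) : H v.T0' = 1 := by
  unfold T0'
  rw [v.q2.H_map, w.p1.H_map, hs.HT]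

theorem hT0r (hs : s.Hyp) (h0 : 0 ≤ r) (hr : r ≤ 1) : h v.T0 v.Tr = 1 - r := by
  have h1 : h (dg (v.q1.qs (w.p1.qs s.t)) 1) ⊥ = 1 := by
    rw [h_bot, ← v.T0_eq]
    exact v.HT0 hs
  have h2 := (h_dg_of_full h1 h0 hr).2
  rw [sup_bot_eq] at h2
  rw [v.T0_eq, v.Tr_eq]
  exact h2

theorem hT0r' (hs : s.Hyp) (h0 : 0 ≤ r) (hr : r ≤ 1) : h v.T0' v.Tr = 1 - r := by
  have h1 : h (dg (v.q2.qs (w.p1.qs s.t)) 1) ⊥ = 1 := by
    rw [h_bot, ← v.T0'_eq]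
    exact v.HT0' hs
  have h2 := (h_dg_of_full h1 h0 hr).2
  rw [sup_bot_eq] at h2
  rw [v.T0'_eq, v.Tr_eq' hr]
  exact h2

theorem tau_le : dg v.tau 1 ≤ v.T0 ⊔ v.T0' := by
  rw [v.T0_eq, v.T0'_eq]
  unfold tau
  refine (dg_sub_le _ _ le_rfl).trans ?_
  order

theorem T0'_le : v.T0' ≤ v.T0 ⊔ dg v.tau 1 := by
  rw [v.T0_eq, v.T0'_eq]
  have h1 : v.q2.qs (w.p1.qs s.t) = v.q1.qs (w.p1.qs s.t) + v.tau := by
    unfold tau
    ring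
  conv_lhs => rw [h1]
  exact dg_add_le _ _ le_rfl

theorem T0_le : v.T0 ≤ v.T0' ⊔ dg v.tau 1 := by
  rw [v.T0_eq, v.T0'_eq]
  have h1 : v.q1.qs (w.p1.qs s.t) = v.q2.qs (w.p1.qs s.t) - v.tau := by
    unfold tau
    ring
  conv_lhs => rw [h1]
  exact dg_sub_le _ _ le_rfl

theorem h_tau_le (hr : r ≤ 1) (A : v.D.L) : h (dg v.tau 1) A ≤ 1 - r := h_dg_of_mem hr v.tau_mem A

/-- the first height is independent of the second line, the direction `u` and `tau` -/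
theorem e4 (hs : s.Hyp) (h0 : 0 ≤ r) (hr : r ≤ 1) : I v.T0 (v.K' ⊔ v.U ⊔ dg v.tau 1) ⊥ = 0 := by
  have h1 := v.e3 hs
  have h2 := v.e1 hs hr (w.p2.map (s.fv.iL ⊔ s.fv.iB) ⊔ w.p1.map s.fv.iX ⊔ w.p1.map s.fv.iT)
  rw [v.q2.map_sup, v.q2.map_sup, v.eU] at h2
  have t1 := v.Tr_le' hr
  have h3 : h v.T0 (v.T0' ⊔ (v.K' ⊔ v.U)) = 1 - r := by
    rw [← v.hT0r hs h0 hr]
    exact h_of_ind' h2 (by order) (by unfold K' T0'; order)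
  have h5 := I_zero_iff_h.mp h1
  rw [sup_bot_eq, h_bot, v.HT0' hs] at h5
  have a1 := v.tau_le
  have a2 := v.T0'_le
  have h6 : v.T0' ⊔ v.T0 ⊔ (v.K' ⊔ v.U) = dg v.tau 1 ⊔ v.T0 ⊔ (v.K' ⊔ v.U) := by order
  have h7 : h (v.T0' ⊔ v.T0) (v.K' ⊔ v.U) = h (dg v.tau 1 ⊔ v.T0) (v.K' ⊔ v.U) := by
    unfold h
    rw [h6]
  rw [h_chain, h_chain, h5, h3] at h7
  have h9 := v.h_tau_le hr (v.K' ⊔ v.U)
  refine ind_of_h ?_
  rw [h_bot, sup_bot_eq, v.HT0 hs]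
  have h10 : dg v.tau 1 ⊔ (v.K' ⊔ v.U) = v.K' ⊔ v.U ⊔ dg v.tau 1 := sup_comm _ _
  rw [h10] at h7
  linarith

theorem h5r (hs : s.Hyp) (h0 : 0 ≤ r) (hr : r ≤ 1) : h (dg v.tau 1) (v.K ⊔ v.U ⊔ v.T0) = 1 - r := by
  have h2 := v.e1' hs hr (w.p2.map (s.fv.iL ⊔ s.fv.iB) ⊔ w.p1.map s.fv.iX ⊔ w.p1.map s.fv.iT)
  rw [v.q1.map_sup, v.q1.map_sup] at h2
  have t1 := v.Tr_le hr
  have h4 : h v.T0' (v.K ⊔ v.U ⊔ v.T0) = 1 - r := by
    rw [← v.hT0r' hs h0 hr]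
    exact h_of_ind' h2 (by order) (by unfold K U T0; order)
  apply le_antisymm (v.h_tau_le hr _)
  have a1 := v.T0'_le
  have h6 := h_mono (B := v.K ⊔ v.U ⊔ v.T0) a1
  have h7 := h_sup_le v.T0 (dg v.tau 1) (v.K ⊔ v.U ⊔ v.T0)
  have h8 : h v.T0 (v.K ⊔ v.U ⊔ v.T0) = 0 := h_zero (by order)
  linarith

/-- `tau` is real over the second star -/
theorem h5r' (hs : s.Hyp) (h0 : 0 ≤ r) (hr : r ≤ 1) (y : w.D.L) :
    h (dg v.tau 1) (v.R ⊔ v.X ⊔ v.q2.map y ⊔ v.T0') = 1 - r := by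
  have h2 := v.e1 hs hr (y ⊔ w.p1.map s.fv.iT)
  rw [v.q2.map_sup] at h2
  have t1 := v.Tr_le' hr
  have h4 : h v.T0 (v.R ⊔ v.X ⊔ v.q2.map y ⊔ v.T0') = 1 - r := by
    rw [← v.hT0r hs h0 hr]
    exact h_of_ind' h2 (by order) (by unfold T0'; order)
  apply le_antisymm (v.h_tau_le hr _)
  have a1 := v.T0_le
  have h6 := h_mono (B := v.R ⊔ v.X ⊔ v.q2.map y ⊔ v.T0') a1
  have h7 := h_sup_le v.T0' (dg v.tau 1) (v.R ⊔ v.X ⊔ v.q2.map y ⊔ v.T0')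
  have h8 : h v.T0' (v.R ⊔ v.X ⊔ v.q2.map y ⊔ v.T0') = 0 := h_zero (by order)
  linarith

theorem H_tau (hs : s.Hyp) (h0 : 0 ≤ r) (hr : r ≤ 1) : H (dg v.tau 1) = 1 - r := by
  apply le_antisymm
  · have h1 := v.h_tau_le hr ⊥
    rw [h_bot] at h1
    exact h1
  · have h1 := h_le_H (dg v.tau 1) (v.K ⊔ v.U ⊔ v.T0)
    rw [v.h5r hs h0 hr] at h1
    exact h1

/-- `tau` is independent of the first star -/
theorem e5 (hs : s.Hyp) (h0 : 0 ≤ r) (hr : r ≤ 1) : I (dg v.tau 1) (v.K ⊔ v.U ⊔ v.T0) ⊥ = 0 := by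
  refine ind_of_h ?_
  rw [h_bot, sup_bot_eq, v.H_tau hs h0 hr, v.h5r hs h0 hr]

/-- `tau` is independent of the second star -/
theorem e5' (hs : s.Hyp) (h0 : 0 ≤ r) (hr : r ≤ 1) (y : w.D.L) :
    I (dg v.tau 1) (v.R ⊔ v.X ⊔ v.q2.map y ⊔ v.T0') ⊥ = 0 := by
  refine ind_of_h ?_
  rw [h_bot, sup_bot_eq, v.H_tau hs h0 hr, v.h5r' hs h0 hr]

/-- coordinates of the second line -/
theorem za (i : Fin d) : v.q1.qs (w.p2.qs (s.a i)) = v.q2.qs (w.p2.qs (s.a i)) -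
    v.tau * (v.q1.qs (w.p1.qs (s.x i)) - v.q2.qs (w.p2.qs (s.x i))) := by
  have h1 := congrArg v.q1.qs (w.cy i)
  have h2 := congrArg v.q2.qs (w.cy i)
  unfold FV.y at h1 h2
  simp only [map_add, map_mul] at h1 h2
  have h3 := congrArg v.q1.qs w.ct
  have h4 := congrArg v.q2.qs w.ct
  have c1 : v.q1.qs (w.p1.qs (s.fv.a i)) = v.q2.qs (w.p1.qs (s.fv.a i)) := v.ca i
  have c2 : v.q1.qs (w.p1.qs (s.fv.x i)) = v.q2.qs (w.p1.qs (s.fv.x i)) := v.cu i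
  have c3 : v.q1.qs (w.p2.qs (s.fv.x i)) = v.q2.qs (w.p2.qs (s.fv.x i)) := v.cx i
  rw [← h3] at h1
  rw [← h4, ← c1, ← c2] at h2
  rw [c3] at h1
  unfold tau
  have e1 : s.fv.a i = s.a i := rfl
  have e2 : s.fv.x i = s.x i := rfl
  have e3 : s.fv.t = s.t := rfl
  rw [e1, e2, e3] at h1 h2
  linear_combination h2 - h1

/-- each of the two parallel base lines from the other one -/
theorem lK : v.q1.map (w.p2.map s.fv.iL) ≤ v.q2.map (w.p2.map s.fv.iL) ⊔ v.U ⊔ dg v.tau 1 := by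
  have e0 : v.q1.map (w.p2.map (vd s.x 1)) = v.q2.map (w.p2.map (vd s.x 1)) := v.eX.symm
  have e1 : v.q2.map (w.p2.map (vd s.x 1)) ≤ v.q2.map (w.p2.map s.fv.iL) :=
    v.q2.map_mono (w.p2.map_mono le_sup_right)
  have e3 : v.q1.map (w.p2.map (vd s.a 1)) ≤ v.q2.map (w.p2.map s.fv.iL) ⊔ v.U ⊔ dg v.tau 1 := by
    rw [← w.p2.qs_vd, ← v.q1.qs_vd, vd_le]
    intro i
    rw [v.za i]
    have b1 := dg_sub_le (v.q2.qs (w.p2.qs (s.a i))) (v.tau *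
      (v.q1.qs (w.p1.qs (s.x i)) - v.q2.qs (w.p2.qs (s.x i)))) (r := 1) le_rfl
    have b2 := dg_mul_le v.tau (v.q1.qs (w.p1.qs (s.x i)) - v.q2.qs (w.p2.qs (s.x i)))
      (r := 1) le_rfl
    have b3 := dg_sub_le (v.q1.qs (w.p1.qs (s.x i))) (v.q2.qs (w.p2.qs (s.x i))) (r := 1) le_rfl
    have b4 : dg (v.q2.qs (w.p2.qs (s.x i))) 1 ≤ v.q2.map (w.p2.map (vd s.x 1)) := by
      rw [← w.p2.qs_vd, ← v.q2.qs_vd]
      exact dg_le_vd (fun i => v.q2.qs (w.p2.qs (s.x i))) 1 i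
    have b5 : dg (v.q1.qs (w.p1.qs (s.x i))) 1 ≤ v.U := by
      unfold U FV.iX
      rw [← w.p1.qs_vd, ← v.q1.qs_vd]
      exact dg_le_vd (fun i => v.q1.qs (w.p1.qs (s.x i))) 1 i
    have b6 : dg (v.q2.qs (w.p2.qs (s.a i))) 1 ≤ v.q2.map (w.p2.map s.fv.iL) := by
      unfold FV.iL
      refine le_trans ?_ (v.q2.map_mono (w.p2.map_mono le_sup_left))
      rw [← w.p2.qs_vd, ← v.q2.qs_vd]
      exact dg_le_vd (fun i => v.q2.qs (w.p2.qs (s.a i))) 1 i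
    order
  have e4 : v.q1.map (w.p2.map s.fv.iL) = v.q1.map (w.p2.map (vd s.a 1)) ⊔
      v.q1.map (w.p2.map (vd s.x 1)) := by
    unfold FV.iL
    rw [w.p2.map_sup, v.q1.map_sup]
    rfl
  rw [e4, e0]
  order

theorem lK' : v.q2.map (w.p2.map s.fv.iL) ≤ v.q1.map (w.p2.map s.fv.iL) ⊔ v.U ⊔ dg v.tau 1 := by
  have e0 : v.q2.map (w.p2.map (vd s.x 1)) = v.q1.map (w.p2.map (vd s.x 1)) := v.eX
  have e1 : v.q1.map (w.p2.map (vd s.x 1)) ≤ v.q1.map (w.p2.map s.fv.iL) :=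
    v.q1.map_mono (w.p2.map_mono le_sup_right)
  have e3 : v.q2.map (w.p2.map (vd s.a 1)) ≤ v.q1.map (w.p2.map s.fv.iL) ⊔ v.U ⊔ dg v.tau 1 := by
    rw [← w.p2.qs_vd, ← v.q2.qs_vd, vd_le]
    intro i
    have a1 : v.q2.qs (w.p2.qs (s.a i)) = v.q1.qs (w.p2.qs (s.a i)) +
        v.tau * (v.q1.qs (w.p1.qs (s.x i)) - v.q1.qs (w.p2.qs (s.x i))) := by
      rw [v.cx i, v.za i]
      ring
    rw [a1]
    have b1 := dg_add_le (v.q1.qs (w.p2.qs (s.a i))) (v.tau *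
      (v.q1.qs (w.p1.qs (s.x i)) - v.q1.qs (w.p2.qs (s.x i)))) (r := 1) le_rfl
    have b2 := dg_mul_le v.tau (v.q1.qs (w.p1.qs (s.x i)) - v.q1.qs (w.p2.qs (s.x i)))
      (r := 1) le_rfl
    have b3 := dg_sub_le (v.q1.qs (w.p1.qs (s.x i))) (v.q1.qs (w.p2.qs (s.x i))) (r := 1) le_rfl
    have b4 : dg (v.q1.qs (w.p2.qs (s.x i))) 1 ≤ v.q1.map (w.p2.map (vd s.x 1)) := by
      rw [← w.p2.qs_vd, ← v.q1.qs_vd]
      exact dg_le_vd (fun i => v.q1.qs (w.p2.qs (s.x i))) 1 i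
    have b5 : dg (v.q1.qs (w.p1.qs (s.x i))) 1 ≤ v.U := by
      unfold U FV.iX
      rw [← w.p1.qs_vd, ← v.q1.qs_vd]
      exact dg_le_vd (fun i => v.q1.qs (w.p1.qs (s.x i))) 1 i
    have b6 : dg (v.q1.qs (w.p2.qs (s.a i))) 1 ≤ v.q1.map (w.p2.map s.fv.iL) := by
      unfold FV.iL
      refine le_trans ?_ (v.q1.map_mono (w.p2.map_mono le_sup_left))
      rw [← w.p2.qs_vd, ← v.q1.qs_vd]
      exact dg_le_vd (fun i => v.q1.qs (w.p2.qs (s.a i))) 1 i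
    order
  have e4 : v.q2.map (w.p2.map s.fv.iL) = v.q2.map (w.p2.map (vd s.a 1)) ⊔
      v.q2.map (w.p2.map (vd s.x 1)) := by
    unfold FV.iL
    rw [w.p2.map_sup, v.q2.map_sup]
    rfl
  rw [e4, e0]
  order

end ZedT

end

end Pool.Agent.Helper96.FLC
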